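import Mathlib
import Pool.Agent.H96R3.BC.Stmts
import Pool.Agent.Helper923.PPS.BT

set_option autoImplicit false

/-!
# Task NS of project BIGCOEF: the integers of a cell with a large prime factor
-/

set_option exponentiation.threshold 1000

open Finset

namespace Pool.Agent.H811R3.BCNS

open Pool.Agent.H96R3.BC

/-- number of primes `q` with `A < m q ≤ B` -/
theorem prime_count {C : ℝ} (hC : 1 ≤ C)
    (hBT : ∀ (a q N : ℕ), 2 ≤ N → (q = 1 ∨ q.Prime) →
      (((Finset.range N).filter (fun k => (a + k * q).Prime)).card : ℝ) ≤ C * N / Real.log N)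
    (A B m : ℕ) (hm : 0 < m) (S : Finset ℕ) (hS : ∀ q ∈ S, q.Prime ∧ A < m * q ∧ m * q ≤ B)
    (l y : ℝ) (hy : y = ((B : ℝ) - A) / m) (hy2 : 2 ≤ y) (hl : 0 < l) (hly : l ≤ Real.log y) :
    (S.card : ℝ) ≤ 2 * C * y / l := by
  have hmR : (0 : ℝ) < m := by exact_mod_cast hm
  obtain ⟨N, hN⟩ : ∃ N : ℕ, N = ⌈y⌉₊ + 1 := ⟨_, rfl⟩
  have hceil : y ≤ (⌈y⌉₊ : ℝ) := Nat.le_ceil y
  have hceil2 : (⌈y⌉₊ : ℝ) < y + 1 := Nat.ceil_lt_add_one (by linarith)
  have hNr : (N : ℝ) = (⌈y⌉₊ : ℝ) + 1 := by rw [hN]; push_cast; ring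
  have hN2 : 2 ≤ N := by
    have : (2 : ℝ) ≤ N := by rw [hNr]; linarith
    exact_mod_cast this
  have hcard : S.card ≤ ((Finset.range N).filter (fun k => (A / m + 1 + k * 1).Prime)).card := by
    apply Finset.card_le_card_of_injOn (fun q => q - (A / m + 1))
    · intro q hq
      have h := hS q hq
      have h1 : A / m < q := by
        rw [Nat.div_lt_iff_lt_mul hm, mul_comm]; exact h.2.1
      have h3 : A < m * (A / m + 1) := Nat.lt_mul_div_succ A hm
      simp only [Finset.coe_filter, Finset.mem_range, Set.mem_ofPred_eq]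
      refine ⟨?_, ?_⟩
      · have h4 : ((q - (A / m + 1) : ℕ) : ℝ) < y := by
          rw [Nat.cast_sub (by omega), hy, lt_div_iff₀ hmR]
          have h5 : ((m * q : ℕ) : ℝ) ≤ B := by exact_mod_cast h.2.2
          have h6 : (A : ℝ) < ((m * (A / m + 1) : ℕ) : ℝ) := by exact_mod_cast h3
          rw [Nat.cast_mul] at h5 h6
          nlinarith
        have h5 : ((q - (A / m + 1) : ℕ) : ℝ) < (N : ℝ) := by rw [hNr]; linarith
        exact_mod_cast h5
      · rw [mul_one, show A / m + 1 + (q - (A / m + 1)) = q by omega]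
        exact h.1
    · intro q hq r hr hqr
      have h := hS q hq
      have h' := hS r hr
      have h1 : A / m < q := by
        rw [Nat.div_lt_iff_lt_mul hm, mul_comm]; exact h.2.1
      have h2 : A / m < r := by
        rw [Nat.div_lt_iff_lt_mul hm, mul_comm]; exact h'.2.1
      simp only at hqr
      omega
  have h1 := hBT (A / m + 1) 1 N hN2 (Or.inl rfl)
  have h2 : (S.card : ℝ) ≤ C * N / Real.log N := le_trans (by exact_mod_cast hcard) h1
  have hNy : y ≤ N := by rw [hNr]; linarith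
  have hlogN : l ≤ Real.log N := hly.trans (Real.log_le_log (by linarith) hNy)
  refine h2.trans ?_
  have h3 : (N : ℝ) ≤ 2 * y := by rw [hNr]; linarith
  rw [div_le_div_iff₀ (by linarith) hl]
  have h4 : C * N ≤ C * (2 * y) := by
    apply mul_le_mul_of_nonneg_left h3; linarith
  have h5 : 0 ≤ C * (2 * y) := by nlinarith
  calc C * N * l ≤ C * (2 * y) * l := by apply mul_le_mul_of_nonneg_right h4 hl.le
    _ ≤ C * (2 * y) * Real.log N := by apply mul_le_mul_of_nonneg_left hlogN h5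
    _ = 2 * C * y * Real.log N := by ring

/-- number of base primes `q` of a window with `A < m q ≤ B` -/
theorem base_count {C₁ : ℝ} {X : ℕ → ℕ} {P0 : ℕ → Finset ℕ} {a0 : ℕ → ℝ} (hB : Base C₁ X P0 a0) (i : ℕ)
    (A B m : ℕ) (hAB : A ≤ B) (hm : 0 < m) (S : Finset ℕ) (hS : ∀ q ∈ S, q ∈ P0 i ∧ A < m * q ∧ m * q ≤ B)
    (y : ℝ) (hy : y = ((B : ℝ) - A) / m) (hy1 : 1 ≤ y) (hD0 : 0 < DD (X i)) (hD : DD (X i) ≤ y) :
    (S.card : ℝ) ≤ 3 * y / DD (X i) := by
  have hmR : (0 : ℝ) < m := by exact_mod_cast hm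
  have hdiv : A / m ≤ B / m := Nat.div_le_div_right hAB
  have hsub : S ⊆ (Ioc (A / m) (A / m + (B / m - A / m))).filter (fun p => p ∈ P0 i) := by
    intro q hq
    have h := hS q hq
    have h1 : A / m < q := by
      rw [Nat.div_lt_iff_lt_mul hm, mul_comm]; exact h.2.1
    have h2 : q ≤ B / m := by
      rw [Nat.le_div_iff_mul_le hm, mul_comm]; exact h.2.2
    rw [Finset.mem_filter, Finset.mem_Ioc]
    exact ⟨⟨h1, by omega⟩, h.1⟩
  have h1 := hB.sparse i (A / m) (B / m - A / m)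
  have h2 : (S.card : ℝ) ≤ ((B / m - A / m : ℕ) : ℝ) / DD (X i) + 1 :=
    le_trans (by exact_mod_cast Finset.card_le_card hsub) h1
  have h3 : ((B / m - A / m : ℕ) : ℝ) ≤ 2 * y := by
    rw [Nat.cast_sub hdiv]
    have h4 : ((B / m : ℕ) : ℝ) ≤ (B : ℝ) / m := Nat.cast_div_le
    have h5 : (A : ℝ) / m < ((A / m : ℕ) : ℝ) + 1 := by
      rw [div_lt_iff₀ hmR]
      have h6 : A < m * (A / m + 1) := Nat.lt_mul_div_succ A hm
      have h7 : (A : ℝ) < ((m * (A / m + 1) : ℕ) : ℝ) := by exact_mod_cast h6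
      push_cast at h7 ⊢
      linarith
    have h6 : y = (B : ℝ) / m - (A : ℝ) / m := by rw [hy]; ring
    linarith
  refine h2.trans ?_
  have h4 : ((B / m - A / m : ℕ) : ℝ) / DD (X i) ≤ 2 * y / DD (X i) := by gcongr
  have h5 : 1 ≤ y / DD (X i) := by rw [le_div_iff₀ hD0]; linarith
  calc ((B / m - A / m : ℕ) : ℝ) / DD (X i) + 1 ≤ 2 * y / DD (X i) + y / DD (X i) := by linarith
    _ = 3 * y / DD (X i) := by ring

theorem DD_pos {X : ℕ} (h1 : 0 < Real.log X) : 0 < DD X := by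
  unfold DD; positivity

theorem AA_pos (X : ℕ) : 0 < AA X := Real.exp_pos _

theorem AA_DD {X : ℕ} {l : ℝ} (hl : 0 < l) (hX : l ≤ Real.log X) :
    AA X / DD X ≤ (Nat.factorial 12 : ℝ) / l ^ 4 := by
  obtain ⟨L, hL⟩ : ∃ L : ℝ, L = Real.log X := ⟨_, rfl⟩
  unfold AA DD
  rw [← hL] at hX ⊢
  have hL0 : 0 < L := by linarith
  obtain ⟨r, hr⟩ : ∃ r : ℝ, r = Real.sqrt L := ⟨_, rfl⟩
  have hr0 : 0 ≤ r := by rw [hr]; exact Real.sqrt_nonneg _
  have hr2 : r ^ 2 = L := by rw [hr]; exact Real.sq_sqrt hL0.le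
  rw [← hr]
  have h1 := Real.pow_div_factorial_le_exp r hr0 12
  have h2 : (0 : ℝ) < Nat.factorial 12 := by positivity
  rw [div_le_iff₀ h2] at h1
  have h3 : Real.exp (2 * r) = Real.exp r * Real.exp r := by rw [← Real.exp_add]; ring_nf
  have he : 0 < Real.exp r := Real.exp_pos r
  have h4 : Real.exp r / (Real.exp (2 * r) / L ^ 2) = L ^ 2 / Real.exp r := by
    rw [h3]; field_simp
  rw [h4]
  have h5 : L ^ 2 / Real.exp r ≤ (Nat.factorial 12 : ℝ) / L ^ 4 := by
    rw [div_le_div_iff₀ he (by positivity)]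
    calc L ^ 2 * L ^ 4 = r ^ 12 := by rw [← hr2]; ring
      _ ≤ _ := by linarith
  refine h5.trans ?_
  gcongr

/-- the windows: strict growth -/
theorem window_unique {C₁ : ℝ} {X : ℕ → ℕ} {P0 : ℕ → Finset ℕ} {a0 : ℕ → ℝ} (hB : Base C₁ X P0 a0)
    {i k : ℕ} (M : ℝ) (hi : M ≤ (X i : ℝ)) (hM0 : 0 ≤ M) (hk : (X k : ℝ) < Real.exp (M ^ 2)) : k ≤ i := by
  by_contra hcon
  push Not at hcon
  have hstep : ∀ n, X n ≤ X (n + 1) := by
    intro n
    have h := hB.tower n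
    have h1 : (X n : ℝ) ≤ Real.exp (Real.exp ((X n : ℝ) ^ 2)) := by
      have e1 : (X n : ℝ) ^ 2 + 1 ≤ Real.exp ((X n : ℝ) ^ 2) := Real.add_one_le_exp _
      have e2 : Real.exp ((X n : ℝ) ^ 2) + 1 ≤ Real.exp (Real.exp ((X n : ℝ) ^ 2)) := Real.add_one_le_exp _
      nlinarith [sq_nonneg ((X n : ℝ) - 1)]
    exact_mod_cast h1.trans h
  have hmono : Monotone X := monotone_nat_of_le_succ hstep
  have h1 : X (i + 1) ≤ X k := hmono hcon
  have h2 : Real.exp (Real.exp ((X i : ℝ) ^ 2)) ≤ (X k : ℝ) :=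
    (hB.tower i).trans (by exact_mod_cast h1)
  have h3 : Real.exp (M ^ 2) ≤ Real.exp (Real.exp ((X i : ℝ) ^ 2)) := by
    apply Real.exp_le_exp.mpr
    have e1 : (X i : ℝ) ^ 2 + 1 ≤ Real.exp ((X i : ℝ) ^ 2) := Real.add_one_le_exp _
    have e2 : M ^ 2 ≤ (X i : ℝ) ^ 2 := by gcongr
    linarith
  linarith

theorem gg_nonneg {C₁ : ℝ} {X : ℕ → ℕ} {P0 : ℕ → Finset ℕ} {a0 : ℕ → ℝ} (hB : Base C₁ X P0 a0)
    (Q j₀ p : ℕ) : 0 ≤ gg Q j₀ a0 p := by
  unfold gg
  split_ifs with h1 h2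
  · have : ∃ i, p ∈ P0 i := by
      by_contra hcon
      push Not at hcon
      exact h1 (hB.off p hcon)
    obtain ⟨i, hi⟩ := this
    rw [hB.val i p hi]
    exact (AA_pos _).le
  · positivity
  · exact le_rfl

/-- size of the cell: `j + 1 ≤ exp (2 log j)` and powers -/
theorem succ_pow_le {j Q : ℕ} {l : ℝ} (hl : l = Real.log j) (hj : (1025 : ℝ) ≤ j) :
    (j + 1 : ℝ) ^ (2 * Q) ≤ Real.exp (4 * Q * l) := by
  have hjR : (0 : ℝ) < j := by linarith
  have h1 : (j + 1 : ℝ) ≤ Real.exp (2 * l) := by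
    have e1 : Real.exp (2 * l) = j * j := by
      rw [show 2 * l = l + l by ring, Real.exp_add, hl, Real.exp_log hjR]
    rw [e1]; nlinarith
  calc (j + 1 : ℝ) ^ (2 * Q) ≤ (Real.exp (2 * l)) ^ (2 * Q) := by gcongr
    _ = Real.exp (4 * Q * l) := by
      rw [← Real.exp_nat_mul]; push_cast; ring_nf

theorem window_facts {X j Q : ℕ} {l y : ℝ} (hl : l = Real.log j) (hj : (1025 : ℝ) ≤ j) (hl1 : 1024 ≤ l)
    (hQl : 4 * (Q : ℝ) ≤ l) (hyj : (j : ℝ) ^ 2 ≤ y) (hi1 : (X : ℝ) < (j + 1 : ℝ) ^ (2 * Q)) (hi2 : (j : ℝ) ≤ X) :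
    0 < DD X ∧ DD X ≤ y ∧ AA X / DD X ≤ (Nat.factorial 12 : ℝ) / l ^ 4 := by
  have hjR : (0 : ℝ) < j := by linarith
  have hlpos : 0 < l := by linarith
  have hXpos : (0 : ℝ) < X := by linarith
  have hL1 : l ≤ Real.log X := by rw [hl]; exact Real.log_le_log hjR hi2
  have hL2 : Real.log X ≤ 4 * Q * l := by
    have h2 : (X : ℝ) ≤ Real.exp (4 * Q * l) := hi1.le.trans (succ_pow_le hl hj)
    rw [← Real.log_exp (4 * Q * l)]
    exact Real.log_le_log hXpos h2
  have hLpos : 0 < Real.log X := by linarith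
  refine ⟨DD_pos hLpos, ?_, AA_DD hlpos hL1⟩
  refine le_trans ?_ hyj
  unfold DD
  have h3 : Real.sqrt (Real.log X) ≤ l := by
    apply Real.sqrt_le_iff.mpr
    refine ⟨hlpos.le, hL2.trans ?_⟩
    rw [pow_two]
    exact mul_le_mul_of_nonneg_right hQl hlpos.le
  have h4 : Real.exp (2 * Real.sqrt (Real.log X)) ≤ (j : ℝ) ^ 2 := by
    calc Real.exp (2 * Real.sqrt (Real.log X)) ≤ Real.exp (2 * l) := by
          apply Real.exp_le_exp.mpr; linarith
      _ = (j : ℝ) ^ 2 := by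
          rw [show 2 * l = l + l by ring, Real.exp_add, hl, Real.exp_log hjR]; ring
  have h5 : 1 ≤ (Real.log X) ^ 2 := by
    have : 1 ≤ Real.log X := by linarith
    exact one_le_pow₀ this
  exact (div_le_self (Real.exp_pos _).le h5).trans h4

theorem cell_lower {j Q A B m q : ℕ} {y : ℝ} (hA : A = j ^ (2 * Q)) (hBe : B = (j + 1) ^ (2 * Q)) (hQ : 256 ≤ Q)
    (hj : (1025 : ℝ) ≤ j) (hm : 0 < m) (hy : y = ((B : ℝ) - A) / m) (hmq : m * q ≤ B) (hq4 : (j : ℝ) ^ 4 ≤ q) :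
    (j : ℝ) ^ 2 ≤ y := by
  have hjR : (0 : ℝ) < j := by linarith
  have hmR : (0 : ℝ) < m := by exact_mod_cast hm
  have hmq : (m : ℝ) * q ≤ B := by exact_mod_cast hmq
  have hm4 : (m : ℝ) * (j : ℝ) ^ 4 ≤ B := le_trans (mul_le_mul_of_nonneg_left hq4 hmR.le) hmq
  have hBA : (B : ℝ) ≤ ((j : ℝ) + 1) * ((B : ℝ) - A) := by
    have e1 : (j + 1) * A ≤ j * B := by
      obtain ⟨t, ht⟩ : ∃ t, 2 * Q = t + 1 := ⟨2 * Q - 1, by omega⟩
      rw [hA, hBe, ht, pow_succ, pow_succ]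
      have e2 : j ^ t ≤ (j + 1) ^ t := Nat.pow_le_pow_left (by omega) _
      calc (j + 1) * (j ^ t * j) = j ^ t * (j * (j + 1)) := by ring
        _ ≤ (j + 1) ^ t * (j * (j + 1)) := Nat.mul_le_mul_right _ e2
        _ = j * ((j + 1) ^ t * (j + 1)) := by ring
    have e3 : ((j : ℝ) + 1) * A ≤ j * B := by exact_mod_cast e1
    linarith
  rw [hy, le_div_iff₀ hmR]
  have h6 : (0 : ℝ) < (j : ℝ) + 1 := by linarith
  have h5 : (j : ℝ) ^ 2 * m * (j + 1) ≤ (j : ℝ) ^ 4 * m := by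
    have h8 : (j : ℝ) + 1 ≤ (j : ℝ) ^ 2 := by nlinarith
    have h9 : 0 ≤ (j : ℝ) ^ 2 * m := by positivity
    calc (j : ℝ) ^ 2 * m * (j + 1) ≤ (j : ℝ) ^ 2 * m * (j : ℝ) ^ 2 := mul_le_mul_of_nonneg_left h8 h9
      _ = (j : ℝ) ^ 4 * m := by ring
  have h7 : (j : ℝ) ^ 2 * m * (j + 1) ≤ ((B : ℝ) - A) * ((j : ℝ) + 1) := by linarith
  exact le_of_mul_le_mul_right h7 h6

/-- the primes of the integers of the cell with a given cofactor `m` -/
theorem fiber_bound {C : ℝ} (hC : 1 ≤ C)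
    (hBT : ∀ (a q N : ℕ), 2 ≤ N → (q = 1 ∨ q.Prime) →
      (((Finset.range N).filter (fun k => (a + k * q).Prime)).card : ℝ) ≤ C * N / Real.log N)
    {C₁ : ℝ} {X : ℕ → ℕ} {P0 : ℕ → Finset ℕ} {a0 : ℕ → ℝ} (hB : Base C₁ X P0 a0)
    (Q j₀ j A B m : ℕ) (hA : A = j ^ (2 * Q)) (hBe : B = (j + 1) ^ (2 * Q)) (hQ : 256 ≤ Q)
    (hj : 4 * (Q : ℝ) ≤ Real.log j) (hm : 0 < m)
    (S : Finset ℕ) (hS : ∀ q ∈ S, q.Prime ∧ A < m * q ∧ m * q ≤ B ∧ A ≤ q ^ 128 ∧ (m = 1 → a0 q ≠ 0)) :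
    ∑ q ∈ S, gg Q j₀ a0 q ≤ ((B : ℝ) - A) / m *
      ((if 1 < m then 2 * C / (Real.log j) ^ 3 else 0) + 3 * (Nat.factorial 12 : ℝ) / (Real.log j) ^ 4) := by
  classical
  have hQR : (256 : ℝ) ≤ Q := by exact_mod_cast hQ
  have hl0 : (1024 : ℝ) ≤ Real.log j := by linarith
  obtain ⟨l, hl⟩ : ∃ l : ℝ, l = Real.log j := ⟨_, rfl⟩
  rw [← hl] at hj hl0 ⊢
  have hlpos : 0 < l := by linarith
  have hjpos : 0 < j := by
    rcases Nat.eq_zero_or_pos j with h | h
    · rw [hl, h] at hlpos; simp at hlpos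
    · exact h
  have hjR : (0 : ℝ) < j := by exact_mod_cast hjpos
  have hjl : l + 1 ≤ (j : ℝ) := by
    have := Real.add_one_le_exp l
    rw [hl, Real.exp_log hjR] at this
    rw [hl]; exact this
  have hjR2 : (1025 : ℝ) ≤ (j : ℝ) := by linarith
  have hmR : (0 : ℝ) < m := by exact_mod_cast hm
  have hABlt : A ≤ B := by
    rw [hA, hBe]; exact Nat.pow_le_pow_left (by omega) _
  have hABR : (A : ℝ) ≤ B := by exact_mod_cast hABlt
  obtain ⟨y, hy⟩ : ∃ y : ℝ, y = ((B : ℝ) - A) / m := ⟨_, rfl⟩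
  have hy0 : 0 ≤ y := by rw [hy]; apply div_nonneg (by linarith) hmR.le
  rw [← hy]
  rcases S.eq_empty_or_nonempty with hemp | hne
  · rw [hemp, Finset.sum_empty]
    apply mul_nonneg hy0
    apply add_nonneg
    · split_ifs
      · positivity
      · exact le_rfl
    · positivity
  -- every q in S is at least j^4
  have hq4 : ∀ q ∈ S, j ^ 4 ≤ q := by
    intro q hq
    have h := (hS q hq).2.2.2.1
    have h1 : (j ^ 4) ^ 128 ≤ q ^ 128 := by
      refine le_trans ?_ h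
      rw [hA, ← pow_mul]
      exact Nat.pow_le_pow_right hjpos (by omega)
    exact (Nat.pow_le_pow_iff_left (by norm_num)).mp h1
  have hq4R : ∀ q ∈ S, (j : ℝ) ^ 4 ≤ q := by
    intro q hq
    exact_mod_cast hq4 q hq
  -- y is at least j^2
  have hyj : (j : ℝ) ^ 2 ≤ y := by
    obtain ⟨q, hq⟩ := hne
    exact cell_lower hA hBe hQ hjR2 hm hy (hS q hq).2.2.1 (hq4R q hq)
  have hy2 : 2 ≤ y := by nlinarith
  have hly : l ≤ Real.log y := by
    have h1 : (j : ℝ) ≤ y := by nlinarith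
    rw [hl]
    exact Real.log_le_log hjR h1
  -- split
  rw [← Finset.sum_filter_add_sum_filter_not S (fun q => a0 q = 0)]
  rw [mul_add]
  apply add_le_add
  · -- non-base primes
    split_ifs with hm1
    · have hc := prime_count hC hBT A B m hm (S.filter (fun q => a0 q = 0))
        (by
          intro q hq
          have h := hS q (Finset.mem_filter.mp hq).1
          exact ⟨h.1, h.2.1, h.2.2.1⟩) l y hy hy2 hlpos hly
      have hb : ∀ q ∈ S.filter (fun q => a0 q = 0), gg Q j₀ a0 q ≤ 1 / l ^ 2 := by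
        intro q hq
        rw [Finset.mem_filter] at hq
        unfold gg
        rw [if_neg (not_not.mpr hq.2)]
        split_ifs with h1
        · have h2 : 4 * l ≤ Real.log q := by
            have := Real.log_le_log (by positivity) (hq4R q hq.1)
            rw [Real.log_pow] at this
            rw [hl]; exact_mod_cast this
          rw [div_le_div_iff₀ (by nlinarith [sq_nonneg (Real.log q), mul_pos hlpos hlpos]) (by positivity)]
          nlinarith [mul_pos hlpos hlpos]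
        · positivity
      calc ∑ q ∈ S.filter (fun q => a0 q = 0), gg Q j₀ a0 q
          ≤ ∑ q ∈ S.filter (fun q => a0 q = 0), 1 / l ^ 2 := Finset.sum_le_sum hb
        _ = ((S.filter (fun q => a0 q = 0)).card : ℝ) * (1 / l ^ 2) := by
            rw [Finset.sum_const, nsmul_eq_mul]
        _ ≤ (2 * C * y / l) * (1 / l ^ 2) := by
            apply mul_le_mul_of_nonneg_right hc; positivity
        _ = y * (2 * C / l ^ 3) := by field_simp
    · have hm1' : m = 1 := by omega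
      rw [mul_zero]
      apply le_of_eq
      apply Finset.sum_eq_zero
      intro q hq
      rw [Finset.mem_filter] at hq
      exact absurd hq.2 ((hS q hq.1).2.2.2.2 hm1')
  · -- base primes
    rcases (S.filter (fun q => ¬ a0 q = 0)).eq_empty_or_nonempty with hemp | ⟨q₁, hq₁⟩
    · rw [hemp, Finset.sum_empty]; positivity
    have hwin : ∀ q ∈ S.filter (fun q => ¬ a0 q = 0), ∃ i, q ∈ P0 i := by
      intro q hq
      by_contra hcon
      push Not at hcon
      exact (Finset.mem_filter.mp hq).2 (hB.off q hcon)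
    have hsize : ∀ q ∈ S, ∀ i, q ∈ P0 i → (j : ℝ) ≤ X i ∧ (X i : ℝ) < (j + 1 : ℝ) ^ (2 * Q) := by
      intro q hq i hi
      have h := hB.mem i q hi
      have h1 : (q : ℝ) ≤ 2 * X i := by exact_mod_cast h.2.2
      have h2 := hq4R q hq
      refine ⟨?_, ?_⟩
      · have : 2 * (j : ℝ) ≤ (j : ℝ) ^ 4 := by
          have e1 : (j : ℝ) ^ 4 = j * j ^ 3 := by ring
          have e2 : (2 : ℝ) ≤ (j : ℝ) ^ 3 := by nlinarith [sq_nonneg (j : ℝ), pow_pos hjR 2]
          rw [e1]; nlinarith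
        linarith
      · have h3 : (X i : ℝ) < q := by exact_mod_cast h.2.1
        have h4 : q ≤ B := le_trans (Nat.le_mul_of_pos_left q hm) (hS q hq).2.2.1
        have h5 : (q : ℝ) ≤ B := by exact_mod_cast h4
        have h6 : (B : ℝ) = (j + 1 : ℝ) ^ (2 * Q) := by rw [hBe]; push_cast; ring
        linarith
    have hexp : (j + 1 : ℝ) ^ (2 * Q) < Real.exp ((j : ℝ) ^ 2) := by
      refine (succ_pow_le hl hjR2).trans_lt ?_
      apply Real.exp_lt_exp.mpr
      calc 4 * Q * l ≤ l * l := mul_le_mul_of_nonneg_right hj hlpos.le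
        _ < (j : ℝ) ^ 2 := by nlinarith
    obtain ⟨i₁, hi₁⟩ := hwin q₁ hq₁
    have hs₁ := hsize q₁ (Finset.mem_filter.mp hq₁).1 i₁ hi₁
    have hall : ∀ q ∈ S.filter (fun q => ¬ a0 q = 0), q ∈ P0 i₁ := by
      intro q hq
      obtain ⟨i, hi⟩ := hwin q hq
      have hs := hsize q (Finset.mem_filter.mp hq).1 i hi
      have h1 : i ≤ i₁ := window_unique hB (j : ℝ) hs₁.1 hjR.le (lt_trans hs.2 hexp)
      have h2 : i₁ ≤ i := window_unique hB (j : ℝ) hs.1 hjR.le (lt_trans hs₁.2 hexp)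
      have h3 : i = i₁ := le_antisymm h1 h2
      rw [← h3]; exact hi
    obtain ⟨hD0, hDy, hAD⟩ := window_facts hl hjR2 hl0 hj hyj hs₁.2 hs₁.1
    have hc := base_count hB i₁ A B m hABlt hm (S.filter (fun q => ¬ a0 q = 0))
      (by
        intro q hq
        have h := hS q (Finset.mem_filter.mp hq).1
        exact ⟨hall q hq, h.2.1, h.2.2.1⟩) y hy (by linarith) hD0 hDy
    have hval : ∀ q ∈ S.filter (fun q => ¬ a0 q = 0), gg Q j₀ a0 q = AA (X i₁) := by
      intro q hq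
      have h := (Finset.mem_filter.mp hq).2
      unfold gg
      rw [if_pos h, hB.val i₁ q (hall q hq)]
    rw [Finset.sum_congr rfl hval, Finset.sum_const, nsmul_eq_mul]
    calc ((S.filter (fun q => ¬ a0 q = 0)).card : ℝ) * AA (X i₁)
        ≤ 3 * y / DD (X i₁) * AA (X i₁) := mul_le_mul_of_nonneg_right hc (AA_pos _).le
      _ = 3 * y * (AA (X i₁) / DD (X i₁)) := by ring
      _ ≤ 3 * y * ((Nat.factorial 12 : ℝ) / l ^ 4) := by
          apply mul_le_mul_of_nonneg_left hAD; positivity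
      _ = y * (3 * (Nat.factorial 12 : ℝ) / l ^ 4) := by ring

/-- TASK NS -/
theorem taskNS : TaskNS := by
  classical
  intro hG1
  obtain ⟨C, hC, hBT⟩ := Pool.Agent.Helper923.PPS.brun_titchmarsh
  refine ⟨256, ?_⟩
  intro Q hQ s hs
  obtain ⟨s', hs'⟩ : ∃ s' : ℝ, s' = min 1 (s / (4 * C)) := ⟨_, rfl⟩
  have hCpos : 0 < C := by linarith
  have hs'0 : 0 < s' := by rw [hs']; positivity
  have hs'1 : s' ≤ 1 := by rw [hs']; exact min_le_left _ _
  have hs'2 : 2 * C * s' ≤ s / 2 := by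
    have h1 : s' ≤ s / (4 * C) := by rw [hs']; exact min_le_right _ _
    calc 2 * C * s' ≤ 2 * C * (s / (4 * C)) := by gcongr
      _ = s / 2 := by field_simp; norm_num
  obtain ⟨J₁, hJ₁⟩ := hG1 Q (by omega) s' hs'0
  have hev : ∀ᶠ j : ℕ in Filter.atTop, 4 * (Q : ℝ) ≤ Real.log j ∧
      12 * (Nat.factorial 12 : ℝ) / s ≤ Real.log j := by
    have h1 : Filter.Tendsto (fun j : ℕ => Real.log (j : ℝ)) Filter.atTop Filter.atTop :=
      Real.tendsto_log_atTop.comp tendsto_natCast_atTop_atTop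
    exact (h1.eventually_ge_atTop _).and (h1.eventually_ge_atTop _)
  obtain ⟨J₂, hJ₂⟩ := Filter.eventually_atTop.1 hev
  refine ⟨max J₁ J₂, ?_⟩
  intro j₀ hj₀ C₁ X P0 a0 hB hX0 j hj T hT hgood
  have hG := hJ₁ j₀ (by omega) C₁ X P0 a0 hB hX0
  obtain ⟨hj1, hj2⟩ := hJ₂ j (by omega)
  have hQR : (256 : ℝ) ≤ Q := by exact_mod_cast hQ
  have hlpos : 0 < Real.log j := by linarith
  obtain ⟨A, hA⟩ : ∃ A : ℕ, A = j ^ (2 * Q) := ⟨_, rfl⟩
  obtain ⟨B, hBe⟩ : ∃ B : ℕ, B = (j + 1) ^ (2 * Q) := ⟨_, rfl⟩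
  have hABlt : A ≤ B := by
    rw [hA, hBe]; exact Nat.pow_le_pow_left (by omega) _
  have hABR : (A : ℝ) ≤ B := by exact_mod_cast hABlt
  have hcard : ((CC Q j).card : ℝ) = (B : ℝ) - A := by
    unfold CC
    rw [Nat.card_Ioc, ← hA, ← hBe, Nat.cast_sub hABlt]
  -- choice of the prime
  have hex : ∀ n ∈ T, ∃ p, p ∈ n.primeFactors ∧ A ≤ p ^ 128 := by
    intro n hn
    obtain ⟨p, hp1, hp2⟩ := (hgood n hn).2.2
    exact ⟨p, hp1, by rw [hA]; exact hp2⟩
  choose! q hq using hex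
  have hmem : ∀ n ∈ T, A < n ∧ n ≤ B := by
    intro n hn
    have h := hT hn
    unfold CC at h
    rw [Finset.mem_Ioc, ← hA, ← hBe] at h
    exact h
  have hfac : ∀ n ∈ T, (n / q n) * q n = n := fun n hn =>
    Nat.div_mul_cancel (Nat.dvd_of_mem_primeFactors (hq n hn).1)
  have hprime : ∀ n ∈ T, (q n).Prime := fun n hn => Nat.prime_of_mem_primeFactors (hq n hn).1
  have hmpos : ∀ n ∈ T, 0 < n / q n := by
    intro n hn
    rcases Nat.eq_zero_or_pos (n / q n) with h | h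
    · have h1 := hfac n hn
      rw [h, zero_mul] at h1
      have := (hmem n hn).1
      omega
    · exact h
  have hprod : ∀ n ∈ T, ∏ p ∈ n.primeFactors, gg Q j₀ a0 p =
      (∏ p ∈ (n / q n).primeFactors, gg Q j₀ a0 p) * gg Q j₀ a0 (q n) := by
    intro n hn
    have hsq := (hgood n hn).1
    have hco : Nat.Coprime (n / q n) (q n) := by
      have h1 : Squarefree ((n / q n) * q n) := by rw [hfac n hn]; exact hsq
      exact Nat.coprime_of_squarefree_mul h1
    conv_lhs => rw [← hfac n hn]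
    rw [hco.primeFactors_mul, Finset.prod_union hco.disjoint_primeFactors,
      (hprime n hn).primeFactors, Finset.prod_singleton]
  obtain ⟨W, hW⟩ : ∃ W : ℕ → ℝ, W = fun k : ℕ => (∏ p ∈ k.primeFactors, gg Q j₀ a0 p) / k := ⟨_, rfl⟩
  have hGnn : ∀ k : ℕ, 0 ≤ ∏ p ∈ k.primeFactors, gg Q j₀ a0 p := fun k =>
    Finset.prod_nonneg fun p _ => gg_nonneg hB Q j₀ p
  have hWnn : ∀ k, 0 ≤ W k := by
    intro k; rw [hW]; exact div_nonneg (hGnn k) (Nat.cast_nonneg k)
  obtain ⟨I, hI⟩ : ∃ I : Finset ℕ, I = T.image (fun n => n / q n) := ⟨_, rfl⟩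
  have hIpos : ∀ k ∈ I, 0 < k := by
    intro k hk
    rw [hI, Finset.mem_image] at hk
    obtain ⟨n, hn, rfl⟩ := hk
    exact hmpos n hn
  have hIsq : ∀ k ∈ I, Squarefree k := by
    intro k hk
    rw [hI, Finset.mem_image] at hk
    obtain ⟨n, hn, rfl⟩ := hk
    exact (hgood n hn).1.squarefree_of_dvd ⟨q n, (hfac n hn).symm⟩
  obtain ⟨E1, hE1⟩ : ∃ E1 : ℝ, E1 = 2 * C / (Real.log j) ^ 3 := ⟨_, rfl⟩
  obtain ⟨E2, hE2⟩ : ∃ E2 : ℝ, E2 = 3 * (Nat.factorial 12 : ℝ) / (Real.log j) ^ 4 := ⟨_, rfl⟩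
  have hE1nn : 0 ≤ E1 := by rw [hE1]; positivity
  have hE2nn : 0 ≤ E2 := by rw [hE2]; positivity
  have hfib : ∀ k ∈ I, ∑ n ∈ T.filter (fun n => n / q n = k), ∏ p ∈ n.primeFactors, gg Q j₀ a0 p ≤
      ((B : ℝ) - A) * (E1 * (if 1 < k then W k else 0) + E2 * W k) := by
    intro k hk
    have hkpos := hIpos k hk
    have hkR : (0 : ℝ) < k := by exact_mod_cast hkpos
    have hinj : Set.InjOn q ((T.filter (fun n => n / q n = k) : Finset ℕ) : Set ℕ) := by
      intro n hn n' hn' he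
      rw [Finset.mem_coe, Finset.mem_filter] at hn hn'
      have h1 := hfac n hn.1
      have h2 := hfac n' hn'.1
      rw [hn.2] at h1
      rw [hn'.2] at h2
      rw [← h1, ← h2, he]
    have h1 : ∑ n ∈ T.filter (fun n => n / q n = k), ∏ p ∈ n.primeFactors, gg Q j₀ a0 p =
        (∏ p ∈ k.primeFactors, gg Q j₀ a0 p) *
          ∑ r ∈ (T.filter (fun n => n / q n = k)).image q, gg Q j₀ a0 r := by
      rw [Finset.sum_image hinj, Finset.mul_sum]
      apply Finset.sum_congr rfl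
      intro n hn
      rw [Finset.mem_filter] at hn
      rw [hprod n hn.1, hn.2]
    have h2 := fiber_bound hC hBT hB Q j₀ j A B k hA hBe hQ hj1 hkpos
      ((T.filter (fun n => n / q n = k)).image q) (by
        intro r hr
        rw [Finset.mem_image] at hr
        obtain ⟨n, hn, rfl⟩ := hr
        rw [Finset.mem_filter] at hn
        have h3 := hfac n hn.1
        rw [hn.2] at h3
        have h4 := hmem n hn.1
        refine ⟨hprime n hn.1, by rw [h3]; exact h4.1, by rw [h3]; exact h4.2, (hq n hn.1).2, ?_⟩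
        intro hk1 ha
        rw [hk1, one_mul] at h3
        apply (hgood n hn.1).2.1
        rw [← h3]
        rw [h3] at ha
        exact ⟨h3 ▸ hprime n hn.1, by rw [h3]; exact ha⟩)
    rw [h1]
    calc (∏ p ∈ k.primeFactors, gg Q j₀ a0 p) *
          ∑ r ∈ (T.filter (fun n => n / q n = k)).image q, gg Q j₀ a0 r
        ≤ (∏ p ∈ k.primeFactors, gg Q j₀ a0 p) * (((B : ℝ) - A) / k *
      ((if 1 < k then 2 * C / (Real.log j) ^ 3 else 0) + 3 * (Nat.factorial 12 : ℝ) / (Real.log j) ^ 4)) :=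
          mul_le_mul_of_nonneg_left h2 (hGnn k)
      _ = ((B : ℝ) - A) * (E1 * (if 1 < k then W k else 0) + E2 * W k) := by
          rw [hW, hE1, hE2]
          split_ifs
          · ring
          · ring
  have hsum : ∑ n ∈ T, ∏ p ∈ n.primeFactors, gg Q j₀ a0 p =
      ∑ k ∈ I, ∑ n ∈ T.filter (fun n => n / q n = k), ∏ p ∈ n.primeFactors, gg Q j₀ a0 p := by
    symm
    apply Finset.sum_fiberwise_of_maps_to
    intro n hn
    rw [hI]
    exact Finset.mem_image_of_mem _ hn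
  have hS1 : ∑ k ∈ I, (if 1 < k then W k else 0) ≤ s' := by
    rw [← Finset.sum_filter]
    have h1 := hG I
    have h2 : I.filter (fun m => Squarefree m ∧ 1 < m) = I.filter (fun k => 1 < k) := by
      apply Finset.filter_congr
      intro k hk
      exact ⟨fun h => h.2, fun h => ⟨hIsq k hk, h⟩⟩
    rw [h2] at h1
    rw [hW]
    exact h1
  have hS2 : ∑ k ∈ I, W k ≤ 1 + s' := by
    have h1 : ∀ k ∈ I, W k ≤ (if k = 1 then 1 else 0) + (if 1 < k then W k else 0) := by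
      intro k hk
      have := hIpos k hk
      by_cases hk1 : k = 1
      · rw [hk1, hW]; simp
      · rw [if_neg hk1, if_pos (by omega)]; linarith
    calc ∑ k ∈ I, W k ≤ ∑ k ∈ I, ((if k = 1 then 1 else 0) + (if 1 < k then W k else 0)) :=
          Finset.sum_le_sum h1
      _ = ∑ k ∈ I, (if k = 1 then (1:ℝ) else 0) + ∑ k ∈ I, (if 1 < k then W k else 0) :=
          Finset.sum_add_distrib
      _ ≤ 1 + s' := by
          apply add_le_add _ hS1
          rw [Finset.sum_ite_eq' I 1 (fun _ => (1:ℝ))]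
          split_ifs <;> norm_num
  rw [hsum, hcard]
  calc ∑ k ∈ I, ∑ n ∈ T.filter (fun n => n / q n = k), ∏ p ∈ n.primeFactors, gg Q j₀ a0 p
      ≤ ∑ k ∈ I, ((B : ℝ) - A) * (E1 * (if 1 < k then W k else 0) + E2 * W k) :=
        Finset.sum_le_sum hfib
    _ = ((B : ℝ) - A) * (E1 * ∑ k ∈ I, (if 1 < k then W k else 0) + E2 * ∑ k ∈ I, W k) := by
        rw [← Finset.mul_sum, Finset.sum_add_distrib, Finset.mul_sum, Finset.mul_sum]
    _ ≤ ((B : ℝ) - A) * (E1 * s' + E2 * (1 + s')) := by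
        apply mul_le_mul_of_nonneg_left _ (by linarith)
        exact add_le_add (mul_le_mul_of_nonneg_left hS1 hE1nn) (mul_le_mul_of_nonneg_left hS2 hE2nn)
    _ ≤ ((B : ℝ) - A) * (s / (Real.log j) ^ 3) := by
        apply mul_le_mul_of_nonneg_left _ (by linarith)
        have h1 : E1 * s' ≤ (s / 2) / (Real.log j) ^ 3 := by
          rw [hE1]
          calc 2 * C / (Real.log j) ^ 3 * s' = 2 * C * s' / (Real.log j) ^ 3 := by ring
            _ ≤ (s / 2) / (Real.log j) ^ 3 := by gcongr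
        have h2 : E2 * (1 + s') ≤ (s / 2) / (Real.log j) ^ 3 := by
          have h3 : E2 * (1 + s') ≤ E2 * 2 := by
            apply mul_le_mul_of_nonneg_left _ hE2nn; linarith
          refine h3.trans ?_
          rw [hE2]
          rw [div_le_iff₀ hs] at hj2
          rw [div_mul_eq_mul_div, div_le_div_iff₀ (by positivity) (by positivity)]
          have h4 : 3 * (Nat.factorial 12 : ℝ) * 2 ≤ s / 2 * Real.log j := by
            clear hE2 h3 hev hJ₂
            generalize (Nat.factorial 12 : ℝ) = F at hj2 ⊢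
            linarith
          calc 3 * (Nat.factorial 12 : ℝ) * 2 * (Real.log j) ^ 3
              ≤ s / 2 * Real.log j * (Real.log j) ^ 3 := by
                apply mul_le_mul_of_nonneg_right h4; positivity
            _ = s / 2 * (Real.log j) ^ 4 := by ring
        calc E1 * s' + E2 * (1 + s') ≤ (s / 2) / (Real.log j) ^ 3 + (s / 2) / (Real.log j) ^ 3 :=
              add_le_add h1 h2
          _ = s / (Real.log j) ^ 3 := by ring
    _ = s * ((B : ℝ) - A) / (Real.log j) ^ 3 := by ring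

end Pool.Agent.H811R3.BCNS
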