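import Mathlib
import Pool.Agent.H723R3.Beur.Stmts

set_option autoImplicit false
set_option linter.unusedSectionVars false

/-!
# Task A5 of project BEURLING (helper811): extreme rays
-/

namespace Pool.Agent.H811R3.BeurA5

open scoped BoundedContinuousFunction Cardinal
open Beur

universe u

variable {G : Type u} [Group G] [TopologicalSpace G] [DiscreteTopology G]

theorem lcs (E : Type*) [NormedAddCommGroup E] [NormedSpace ℝ E] : LocallyConvexSpace ℝ (WeakDual ℝ E) :=
  inferInstanceAs (LocallyConvexSpace ℝ (WeakBilin (topDualPairing ℝ E)))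

theorem pol_pos {K : Ker G} {S : Set (G →ᵇ ℝ)} (hS : Adm K S) {x : StrongDual ℝ (G →ᵇ ℝ)} (hx : x ∈ pol S) :
    Pos x := fun F hF => hx F (hS.1 F hF)

theorem pos_bd {x : StrongDual ℝ (G →ᵇ ℝ)} (hx : Pos x) (F : G →ᵇ ℝ) : ‖x F‖ ≤ x 1 * ‖F‖ := by
  have h1 : 0 ≤ x (‖F‖ • (1 : G →ᵇ ℝ) - F) := by
    apply hx
    intro g
    have := F.norm_coe_le_norm g
    rw [Real.norm_eq_abs] at this
    simp only [BoundedContinuousFunction.coe_sub, BoundedContinuousFunction.coe_smul, Pi.sub_apply,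
      BoundedContinuousFunction.coe_one, Pi.one_apply, smul_eq_mul, mul_one]
    linarith [le_abs_self (F g)]
  have h2 : 0 ≤ x (‖F‖ • (1 : G →ᵇ ℝ) + F) := by
    apply hx
    intro g
    have := F.norm_coe_le_norm g
    rw [Real.norm_eq_abs] at this
    simp only [BoundedContinuousFunction.coe_add, BoundedContinuousFunction.coe_smul, Pi.add_apply,
      BoundedContinuousFunction.coe_one, Pi.one_apply, smul_eq_mul, mul_one]
    linarith [neg_abs_le (F g)]
  rw [map_sub, map_smul, smul_eq_mul] at h1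
  rw [map_add, map_smul, smul_eq_mul] at h2
  rw [Real.norm_eq_abs, abs_le]
  constructor <;> linarith

theorem eq_zero {x : StrongDual ℝ (G →ᵇ ℝ)} (hx : Pos x) (h : x 1 = 0) : x = 0 := by
  ext F
  have := pos_bd hx F
  rw [h, zero_mul] at this
  exact norm_le_zero_iff.mp this

theorem one_nonneg {x : StrongDual ℝ (G →ᵇ ℝ)} (hx : Pos x) : 0 ≤ x 1 :=
  hx 1 (fun g => by simp)

theorem pol_smul {S : Set (G →ᵇ ℝ)} {x : StrongDual ℝ (G →ᵇ ℝ)} (hx : x ∈ pol S) {c : ℝ} (hc : 0 ≤ c) :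
    c • x ∈ pol S := by
  intro F hF
  change 0 ≤ c • x F
  rw [smul_eq_mul]
  exact mul_nonneg hc (hx F hF)

/-- the base of the cone, as a set in the weak dual -/
def base (S : Set (G →ᵇ ℝ)) : Set (WeakDual ℝ (G →ᵇ ℝ)) :=
  {x | (∀ F ∈ S, 0 ≤ x F) ∧ x 1 = 1}

theorem base_compact {K : Ker G} {S : Set (G →ᵇ ℝ)} (hS : Adm K S) : IsCompact (base S) := by
  have hcl : IsClosed (base S) := by
    have h1 : base S = (⋂ F ∈ S, {x : WeakDual ℝ (G →ᵇ ℝ) | 0 ≤ x F}) ∩ {x | x 1 = 1} := by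
      ext x
      simp [base]
    rw [h1]
    apply IsClosed.inter
    · exact isClosed_biInter fun F _ => isClosed_le continuous_const (WeakDual.eval_continuous F)
    · exact isClosed_eq (WeakDual.eval_continuous 1) continuous_const
  refine (WeakDual.isCompact_closedBall (0 : StrongDual ℝ (G →ᵇ ℝ)) 1).of_isClosed_subset hcl ?_
  intro x hx
  rw [Set.mem_preimage, Metric.mem_closedBall, dist_zero_right]
  apply ContinuousLinearMap.opNorm_le_bound _ zero_le_one
  intro F
  have hpos : Pos (WeakDual.toStrongDual x) := fun F hF => hx.1 F (hS.1 F hF)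
  have h1 := pos_bd hpos F
  have h2 : (WeakDual.toStrongDual x) 1 = 1 := hx.2
  rw [h2] at h1
  exact h1

theorem taskA5 : TaskA5 := by
  intro G _ _ _ _ K S hS
  obtain ⟨x₀, hx₀, hx₀ne⟩ := hS.2.2.2
  have hpos₀ := pol_pos hS hx₀
  have h1 : 0 < x₀ 1 := lt_of_le_of_ne (one_nonneg hpos₀) (fun h => hx₀ne (eq_zero hpos₀ h.symm))
  have hne : (base S).Nonempty := by
    refine ⟨StrongDual.toWeakDual ((x₀ 1)⁻¹ • x₀), ?_, ?_⟩
    · intro F hF
      exact pol_smul hx₀ (inv_nonneg.mpr h1.le) F hF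
    · change (x₀ 1)⁻¹ • x₀ 1 = 1
      rw [smul_eq_mul, inv_mul_cancel₀ h1.ne']
  have hlc : LocallyConvexSpace ℝ (WeakDual ℝ (G →ᵇ ℝ)) := lcs (G →ᵇ ℝ)
  obtain ⟨e, he⟩ := (base_compact hS).extremePoints_nonempty hne
  obtain ⟨heB, hext⟩ := he
  have heone : (WeakDual.toStrongDual e) 1 = 1 := heB.2
  refine ⟨WeakDual.toStrongDual e, fun F hF => heB.1 F hF, ?_, ?_⟩
  · intro h
    rw [h] at heone
    simp at heone
  · intro y hy y' hy' hsum
    have hyp := pol_pos hS hy
    have hyp' := pol_pos hS hy'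
    have ha := one_nonneg hyp
    have ha' := one_nonneg hyp'
    have hadd : y 1 + y' 1 = 1 := by
      have h2 : (y + y') 1 = 1 := by rw [hsum]; exact heone
      exact h2
    rcases ha.eq_or_lt with h | h
    · exact ⟨0, by rw [zero_smul]; exact eq_zero hyp h.symm⟩
    · rcases ha'.eq_or_lt with h' | h'
      · refine ⟨1, ?_⟩
        rw [one_smul, ← hsum, eq_zero hyp' h'.symm, add_zero]
      · refine ⟨y 1, ?_⟩
        have hb : StrongDual.toWeakDual ((y 1)⁻¹ • y) ∈ base S := by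
          refine ⟨fun F hF => pol_smul hy (inv_nonneg.mpr h.le) F hF, ?_⟩
          change (y 1)⁻¹ • y 1 = 1
          rw [smul_eq_mul, inv_mul_cancel₀ h.ne']
        have hb' : StrongDual.toWeakDual ((y' 1)⁻¹ • y') ∈ base S := by
          refine ⟨fun F hF => pol_smul hy' (inv_nonneg.mpr h'.le) F hF, ?_⟩
          change (y' 1)⁻¹ • y' 1 = 1
          rw [smul_eq_mul, inv_mul_cancel₀ h'.ne']
        have hseg : e ∈ openSegment ℝ (StrongDual.toWeakDual ((y 1)⁻¹ • y))
            (StrongDual.toWeakDual ((y' 1)⁻¹ • y')) := by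
          refine ⟨y 1, y' 1, h, h', hadd, ?_⟩
          rw [← map_smul, ← map_smul, smul_smul, smul_smul, mul_inv_cancel₀ h.ne', mul_inv_cancel₀ h'.ne',
            one_smul, one_smul, ← map_add, hsum]
          rfl
        have h2 := hext hb hb' hseg
        have h3 : (y 1)⁻¹ • y = WeakDual.toStrongDual e := by
          rw [← h2]; rfl
        rw [← h3, smul_smul, mul_inv_cancel₀ h.ne', one_smul]

end Pool.Agent.H811R3.BeurA5
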