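import Mathlib
import Pool.Agent.H952R3.Ext.Stmts

set_option autoImplicit false

/-!
# Task C of project H952-RADON (helper811)
-/

namespace Pool.Agent.H811R3.RadonC

open Pool.Agent.Helper766.Rad Pool.Agent.H952R3.Ext

theorem t : TaskC := by
  classical
  intro ι _ M E hs hc hcard
  by_contra hlt
  push Not at hlt
  have h2 : 2 ≤ E.card := by omega
  have hav : ∀ x ∈ E, (circs M (E.erase x)).card = 2 ∧ (circs M E).card = 5 := by
    intro x hx
    have h1 := hc.nullity_le hx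
    have h3 := (hc.nl h2 hx).2
    have h4 := card_circs_del M E x
    have h5 := main_even (hs.subset (Finset.erase_subset x E)) 2
    have h6 := Finset.card_erase_add_one hx
    rw [h3] at h5
    push_cast at h5
    omega
  have hmem : ∀ x ∈ E, ∀ C, C ∈ circs M (E.erase x) ↔ C ∈ circs M E ∧ x ∉ C := by
    intro x _ C
    rw [mem_circs, mem_circs, Finset.subset_erase]
    tauto
  have hall : ∀ x ∈ E, ∀ C D F : Finset ι, C ∈ circs M E → D ∈ circs M E → F ∈ circs M E →
      x ∉ C → x ∉ D → x ∉ F → C ≠ D → F = C ∨ F = D := by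
    intro x hx C D F hC hD hF hxC hxD hxF hne
    by_contra hcon
    push Not at hcon
    have h1 := (hav x hx).1
    have h3 : ({C, D, F} : Finset (Finset ι)) ⊆ circs M (E.erase x) := by
      intro G hG
      rw [Finset.mem_insert, Finset.mem_insert, Finset.mem_singleton] at hG
      rw [hmem x hx]
      rcases hG with rfl | rfl | rfl
      · exact ⟨hC, hxC⟩
      · exact ⟨hD, hxD⟩
      · exact ⟨hF, hxF⟩
    have h4 := Finset.card_le_card h3
    rw [Finset.card_eq_three.mpr ⟨C, D, F, hne, fun h => hcon.1 h.symm, fun h => hcon.2 h.symm, rfl⟩] at h4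
    omega
  have hdisj : ∀ x ∈ E, ∀ C D : Finset ι, C ∈ circs M E → D ∈ circs M E → x ∉ C → x ∉ D → C ≠ D →
      ∀ z, z ∈ C → z ∉ D := by
    intro x hx C D hC hD hxC hxD hne z hzC hzD
    have hzE : z ∈ E := (mem_circs.mp hC).1 hzC
    have hzx : z ≠ x := fun h => hxC (h ▸ hzC)
    have hzEx : z ∈ E.erase x := Finset.mem_erase.mpr ⟨hzx, hzE⟩
    have h3 := (hc.nl h2 hx).2
    have h5 := main_even ((hs.subset (Finset.erase_subset x E)).subset (Finset.erase_subset z _)) 2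
    have h6 := Finset.card_erase_add_one hx
    have h7 := Finset.card_erase_add_one hzEx
    have h8 : M.r ((E.erase x).erase z) ≤ M.r E := by
      rw [← h3]; exact M.mono' (Finset.erase_subset z _)
    push_cast at h5
    have h9 : 0 < (circs M ((E.erase x).erase z)).card := by omega
    obtain ⟨F, hF⟩ := Finset.card_pos.mp h9
    rw [mem_circs, Finset.subset_erase, Finset.subset_erase] at hF
    obtain ⟨⟨⟨hFE, hxF⟩, hzF⟩, hFc⟩ := hF
    rcases hall x hx C D F hC hD (mem_circs.mpr ⟨hFE, hFc⟩) hxC hxD hxF hne with h | h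
    · exact hzF (h ▸ hzC)
    · exact hzF (h ▸ hzD)
  obtain ⟨x₀, hx₀⟩ : E.Nonempty := Finset.card_pos.mp (by omega)
  obtain ⟨A, B, hAB, hABe⟩ := Finset.card_eq_two.mp (hav x₀ hx₀).1
  have hA : A ∈ circs M E ∧ x₀ ∉ A := (hmem x₀ hx₀ A).mp (by rw [hABe]; simp)
  have hB : B ∈ circs M E ∧ x₀ ∉ B := (hmem x₀ hx₀ B).mp (by rw [hABe]; simp)
  obtain ⟨y, hy⟩ := (mem_circs.mp hA.1).2.nonempty
  obtain ⟨z, hz⟩ := (mem_circs.mp hB.1).2.nonempty
  have hyE : y ∈ E := (mem_circs.mp hA.1).1 hy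
  have hzE : z ∈ E := (mem_circs.mp hB.1).1 hz
  have hyB : y ∉ B := hdisj x₀ hx₀ A B hA.1 hB.1 hA.2 hB.2 hAB y hy
  have hzA : z ∉ A := hdisj x₀ hx₀ B A hB.1 hA.1 hB.2 hA.2 hAB.symm z hz
  obtain ⟨D, hD, hDB⟩ := Finset.exists_mem_ne (show 1 < (circs M (E.erase y)).card by
    rw [(hav y hyE).1]; norm_num) B
  rw [hmem y hyE] at hD
  have hDA : D ≠ A := fun h => hD.2 (h ▸ hy)
  have hzD : z ∉ D := hdisj y hyE B D hB.1 hD.1 hyB hD.2 hDB.symm z hz
  have hAD : ∀ w, w ∈ A → w ∉ D := hdisj z hzE A D hA.1 hD.1 hzA hzD hDA.symm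
  have hABd : ∀ w, w ∈ A → w ∉ B := hdisj x₀ hx₀ A B hA.1 hB.1 hA.2 hB.2 hAB
  obtain ⟨C, hC, hCn⟩ := Finset.exists_mem_notMem_of_card_lt_card (s := {A, B, D}) (t := circs M E) (by
    rw [(hav x₀ hx₀).2]
    refine lt_of_le_of_lt (Finset.card_le_three) (by norm_num))
  simp only [Finset.mem_insert, Finset.mem_singleton, not_or] at hCn
  have hsub : A ⊆ C := by
    intro w hw
    by_contra hwC
    have hwE : w ∈ E := (mem_circs.mp hA.1).1 hw
    rcases hall w hwE B D C hB.1 hD.1 hC (hABd w hw) (hAD w hw) hwC hDB.symm with h | h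
    · exact hCn.2.1 h
    · exact hCn.2.2 h
  exact hCn.1 ((mem_circs.mp hC).2.eq_of_subset (mem_circs.mp hA.1).2 hsub).symm

end Pool.Agent.H811R3.RadonC
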