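import Mathlib

open Matrix
open scoped ComplexOrder MatrixOrder InnerProductSpace

namespace Pool.Agent.H811R3.Tr

variable {m : Type*} [Fintype m] [DecidableEq m]

/-- the linear map of a matrix on Euclidean space -/
noncomputable abbrev E (A : Matrix m m ℂ) : EuclideanSpace ℂ m →ₗ[ℂ] EuclideanSpace ℂ m :=
  Matrix.toEuclideanLin A

lemma E_mul (A B : Matrix m m ℂ) (x : EuclideanSpace ℂ m) : E (A * B) x = E A (E B x) := by
  simp [E, Matrix.toLpLin_apply, Matrix.mulVec_mulVec]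

lemma E_one (x : EuclideanSpace ℂ m) : E (1 : Matrix m m ℂ) x = x := by
  simp [E, Matrix.toLpLin_apply]

lemma E_add (A B : Matrix m m ℂ) (x : EuclideanSpace ℂ m) : E (A + B) x = E A x + E B x := by
  simp [E]

lemma E_sub (A B : Matrix m m ℂ) (x : EuclideanSpace ℂ m) : E (A - B) x = E A x - E B x := by
  simp [E]

lemma E_smul (c : ℂ) (A : Matrix m m ℂ) (x : EuclideanSpace ℂ m) : E (c • A) x = c • E A x := by
  simp [E]

lemma E_inner (A : Matrix m m ℂ) (x y : EuclideanSpace ℂ m) :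
    ⟪x, E A y⟫_ℂ = ⟪E Aᴴ x, y⟫_ℂ := by
  rw [E, E, Matrix.toEuclideanLin_conjTranspose_eq_adjoint, LinearMap.adjoint_inner_left]

lemma E_inner' (A : Matrix m m ℂ) (x y : EuclideanSpace ℂ m) :
    ⟪E A x, y⟫_ℂ = ⟪x, E Aᴴ y⟫_ℂ := by
  rw [E_inner, conjTranspose_conjTranspose]

lemma psd_iff {A : Matrix m m ℂ} (hA : A.PosSemidef) (x : EuclideanSpace ℂ m) :
    0 ≤ (⟪x, E A x⟫_ℂ).re := by
  have h := hA.re_dotProduct_nonneg (WithLp.ofLp x)
  simp only [E, EuclideanSpace.inner_eq_star_dotProduct, Matrix.toLpLin_apply]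
  rw [dotProduct_comm]
  exact h

/-- trace against a positive semidefinite matrix is monotone in the quadratic form. -/
lemma trace_nonneg' {A X : Matrix m m ℂ} (hA : A.PosSemidef)
    (hX : ∀ x : EuclideanSpace ℂ m, 0 ≤ (⟪x, E X x⟫_ℂ).re) : 0 ≤ (A * X).trace.re := by
  obtain ⟨B, rfl⟩ := CStarAlgebra.nonneg_iff_eq_star_mul_self.mp hA.nonneg
  rw [star_eq_conjTranspose, Matrix.mul_assoc, Matrix.trace_mul_comm, Matrix.trace]
  rw [Complex.re_sum]
  apply Finset.sum_nonneg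
  intro k _
  have h := hX (WithLp.toLp 2 (fun j => star (B k j)))
  simp only [E, EuclideanSpace.inner_eq_star_dotProduct, Matrix.toLpLin_apply] at h
  rw [dotProduct_comm] at h
  have e : (B * X * Bᴴ).diag k =
      (star fun j => star (B k j)) ⬝ᵥ X *ᵥ fun j => star (B k j) := by
    simp only [Matrix.diag_apply, Matrix.mul_apply, dotProduct, mulVec, conjTranspose_apply,
      Pi.star_apply, star_star, Finset.sum_mul, Finset.mul_sum]
    rw [Finset.sum_comm]
    apply Finset.sum_congr rfl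
    intro i _
    apply Finset.sum_congr rfl
    intro j _
    ring
  rw [e]
  exact h

lemma trace_mono' {A X Y : Matrix m m ℂ} (hA : A.PosSemidef)
    (hX : ∀ x : EuclideanSpace ℂ m, (⟪x, E X x⟫_ℂ).re ≤ (⟪x, E Y x⟫_ℂ).re) :
    (A * X).trace.re ≤ (A * Y).trace.re := by
  have h := trace_nonneg' (X := Y - X) hA (fun x => by
    rw [E_sub, inner_sub_right, Complex.sub_re]
    linarith [hX x])
  rw [Matrix.mul_sub, Matrix.trace_sub, Complex.sub_re] at h
  linarith

/-- spectral form of a Hermitian matrix -/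
lemma spec {A : Matrix m m ℂ} (hA : A.IsHermitian) :
    ∃ (U : Matrix m m ℂ) (μ : m → ℝ), Uᴴ * U = 1 ∧ U * Uᴴ = 1 ∧
      A = U * diagonal (fun k => (μ k : ℂ)) * Uᴴ ∧ (A.PosSemidef → ∀ k, 0 ≤ μ k) := by
  refine ⟨hA.eigenvectorUnitary, hA.eigenvalues, ?_, ?_, ?_, ?_⟩
  · rw [← star_eq_conjTranspose]; exact Unitary.coe_star_mul_self _
  · rw [← star_eq_conjTranspose]; exact Unitary.coe_mul_star_self _
  · conv_lhs => rw [hA.spectral_theorem]
    rw [Unitary.conjStarAlgAut_apply]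
    rfl
  · intro h k
    exact (hA.posSemidef_iff_eigenvalues_nonneg.mp h) k

lemma psd_conj {U : Matrix m m ℂ} {f : m → ℝ} (hf : ∀ k, 0 ≤ f k) :
    (U * diagonal (fun k => (f k : ℂ)) * Uᴴ).PosSemidef := by
  apply Matrix.PosSemidef.mul_mul_conjTranspose_same
  apply Matrix.PosSemidef.diagonal
  intro k
  simpa using hf k

lemma conj_mul {U : Matrix m m ℂ} (hU : Uᴴ * U = 1) (f g : m → ℝ) :
    (U * diagonal (fun k => (f k : ℂ)) * Uᴴ) * (U * diagonal (fun k => (g k : ℂ)) * Uᴴ) =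
      U * diagonal (fun k => ((f k * g k : ℝ) : ℂ)) * Uᴴ := by
  calc _ = U * diagonal (fun k => (f k : ℂ)) * (Uᴴ * U) * diagonal (fun k => (g k : ℂ)) * Uᴴ := by
        simp only [Matrix.mul_assoc]
    _ = _ := by
        rw [hU, Matrix.mul_one, Matrix.mul_assoc U, Matrix.diagonal_mul_diagonal]
        simp

lemma conj_sub {U : Matrix m m ℂ} (f g : m → ℝ) :
    (U * diagonal (fun k => (f k : ℂ)) * Uᴴ) - (U * diagonal (fun k => (g k : ℂ)) * Uᴴ) =
      U * diagonal (fun k => ((f k - g k : ℝ) : ℂ)) * Uᴴ := by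
  rw [← Matrix.sub_mul, ← Matrix.mul_sub, Matrix.diagonal_sub]
  simp

lemma conj_smul {U : Matrix m m ℂ} (c : ℝ) (f : m → ℝ) :
    (c : ℂ) • (U * diagonal (fun k => (f k : ℂ)) * Uᴴ) =
      U * diagonal (fun k => ((c * f k : ℝ) : ℂ)) * Uᴴ := by
  rw [← Matrix.smul_mul, ← Matrix.mul_smul]
  congr 2
  ext i j
  by_cases h : i = j <;> simp [Matrix.diagonal, h]

lemma conj_one {U : Matrix m m ℂ} (hU : U * Uᴴ = 1) :
    (1 : Matrix m m ℂ) = U * diagonal (fun _ => ((1 : ℝ) : ℂ)) * Uᴴ := by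
  simp [hU]

/-- Spectral cut of a positive semidefinite matrix at the level `c > 0`. -/
lemma spectral_cut {M : Matrix m m ℂ} (hM : M.PosSemidef) {c : ℝ} :
    ∃ Q : Matrix m m ℂ, Qᴴ = Q ∧ Q * Q = Q ∧ Q * M = M * Q ∧
      (M - (c : ℂ) • (1 - Q)).PosSemidef ∧ (M - M * Q).PosSemidef ∧
      ((c : ℂ) • (M * Q) - (M * Q) * (M * Q)).PosSemidef := by
  obtain ⟨U, μ, h1, h2, h3, h4⟩ := spec hM.1
  have h4 := h4 hM
  let q : m → ℝ := fun k => if μ k < c then 1 else 0
  let Q : Matrix m m ℂ := U * diagonal (fun k => (q k : ℂ)) * Uᴴ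
  have hq : ∀ k, q k * q k = q k := by
    intro k; simp only [q]; split_ifs <;> norm_num
  refine ⟨Q, ?_, ?_, ?_, ?_, ?_, ?_⟩
  · exact (psd_conj (fun k => by simp only [q]; split_ifs <;> norm_num)).1
  · simp only [Q]
    rw [conj_mul h1]
    simp only [hq]
  · simp only [Q]
    conv_lhs => rw [h3]
    conv_rhs => rw [h3]
    rw [conj_mul h1, conj_mul h1]
    simp only [mul_comm]
  · conv => enter [1, 1]; rw [h3]
    conv => enter [1, 2]; rw [conj_one h2]
    simp only [Q]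
    rw [conj_sub, conj_smul, conj_sub]
    apply psd_conj
    intro k
    simp only [q]
    split_ifs with h
    · simpa using h4 k
    · linarith [not_lt.mp h]
  · have : M - M * Q = U * diagonal (fun k => ((μ k - μ k * q k : ℝ) : ℂ)) * Uᴴ := by
      rw [← conj_sub, ← conj_mul h1, ← h3]
    rw [this]
    apply psd_conj
    intro k
    simp only [q]
    split_ifs with h
    · simp
    · simpa using h4 k
  · have e1 : M * Q = U * diagonal (fun k => ((μ k * q k : ℝ) : ℂ)) * Uᴴ := by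
      rw [← conj_mul h1, ← h3]
    rw [e1, conj_mul h1, conj_smul, conj_sub]
    apply psd_conj
    intro k
    simp only [q]
    split_ifs with h
    · have := h4 k
      nlinarith
    · simp

end Pool.Agent.H811R3.Tr
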