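import Mathlib

open scoped InnerProductSpace

namespace Pool.Agent.H811R3.Tr

section Douglas

variable {F H G : Type*} [AddCommGroup F] [Module ℂ F]
  [NormedAddCommGroup H] [InnerProductSpace ℂ H] [FiniteDimensional ℂ H]
  [NormedAddCommGroup G] [NormedSpace ℂ G]

/-- Douglas factorisation in finite dimension. -/
lemma douglas (V : F →ₗ[ℂ] H) (R : F →ₗ[ℂ] G) (h : ∀ x, ‖R x‖ ≤ ‖V x‖) :
    ∃ K : H →ₗ[ℂ] G, (∀ x, K (V x) = R x) ∧ ∀ y, ‖K y‖ ≤ ‖y‖ := by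
  obtain ⟨s, hs⟩ := V.rangeRestrict.exists_rightInverse_of_surjective
    (LinearMap.range_rangeRestrict V)
  have hs' : ∀ y : LinearMap.range V, V (s y) = y := by
    intro y
    have := congrArg Subtype.val (LinearMap.congr_fun hs y)
    simpa using this
  let P := (LinearMap.range V).orthogonalProjectionOnto
  refine ⟨R ∘ₗ s ∘ₗ (P : H →ₗ[ℂ] LinearMap.range V), ?_, ?_⟩
  · intro x
    have h1 : P (V x) = ⟨V x, LinearMap.mem_range_self V x⟩ :=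
      Submodule.orthogonalProjectionOnto_mem_subspace_eq_self
        (⟨V x, LinearMap.mem_range_self V x⟩ : LinearMap.range V)
    have h2 : V (s (P (V x)) - x) = 0 := by
      rw [map_sub, hs', h1, sub_self]
    have h3 : R (s (P (V x)) - x) = 0 := by
      have := h (s (P (V x)) - x)
      rw [h2, norm_zero] at this
      exact norm_le_zero_iff.mp this
    rw [map_sub, sub_eq_zero] at h3
    simpa using h3
  · intro y
    calc ‖R (s (P y))‖ ≤ ‖V (s (P y))‖ := h _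
      _ = ‖(P y : H)‖ := by rw [hs']
      _ ≤ ‖y‖ := by
        exact (LinearMap.range V).norm_orthogonalProjectionOnto_apply_le y

end Douglas

section Quad

variable {ι H : Type*} [Fintype ι] [DecidableEq ι]
  [NormedAddCommGroup H] [InnerProductSpace ℂ H]

omit [Fintype ι] [DecidableEq ι] [InnerProductSpace ℂ H] in
lemma norm_sum_sq_le (s : Finset ι) (v : ι → H) :
    ‖∑ i ∈ s, v i‖ ^ 2 ≤ s.card * ∑ i ∈ s, ‖v i‖ ^ 2 := by
  have h1 : ‖∑ i ∈ s, v i‖ ≤ ∑ i ∈ s, ‖v i‖ := norm_sum_le _ _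
  have h2 := sq_sum_le_card_mul_sum_sq (s := s) (f := fun i => ‖v i‖)
  calc ‖∑ i ∈ s, v i‖ ^ 2 ≤ (∑ i ∈ s, ‖v i‖) ^ 2 := by
        gcongr
    _ ≤ _ := h2

lemma sum_erase_swap {β : Type*} [AddCommMonoid β] (f : ι → ι → β) :
    ∑ i, ∑ j ∈ Finset.univ.erase i, f i j = ∑ i, ∑ j ∈ Finset.univ.erase i, f j i := by
  apply Finset.sum_comm'
  intro i j
  simp [eq_comm]

/-- The key quadratic inequality. -/
lemma key_quad (Q M : ι → H →ₗ[ℂ] H) (S : ι → ι → H →ₗ[ℂ] H) (n : ℝ)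
    (hn : (Fintype.card ι : ℝ) ≤ n)
    (hQ : ∀ i x y, ⟪Q i x, y⟫_ℂ = ⟪x, Q i y⟫_ℂ)
    (hQn : ∀ i x, ‖Q i x‖ ≤ ‖x‖)
    (hS : ∀ i j, i ≠ j → ∀ x y, ⟪x, y⟫_ℂ = ⟪S i j x, y⟫_ℂ + ⟪x, S j i y⟫_ℂ)
    (hM : ∀ i x, ∑ j ∈ Finset.univ.erase i, ‖S i j x‖ ^ 2 = (⟪x, M i x⟫_ℂ).re)
    (x : ι → H) (hx : ∀ i, Q i (x i) = x i)
    (hc : ∀ i, 4 * n * ‖M i (x i)‖ ^ 2 ≤ (⟪x i, M i (x i)⟫_ℂ).re) :
    ∑ i, ‖x i - (2 * n : ℂ) • M i (x i) + Q i (∑ j ∈ Finset.univ.erase i, S j i (x j))‖ ^ 2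
      ≤ ‖∑ i, x i‖ ^ 2 := by
  have hn0 : 0 ≤ n := le_trans (by positivity) hn
  set y : ι → H := fun i => Q i (∑ j ∈ Finset.univ.erase i, S j i (x j)) with hy
  -- the cross terms
  have hcross : ∑ i, ∑ j ∈ Finset.univ.erase i, ⟪x i, S j i (x j)⟫_ℂ = ∑ i, ⟪x i, y i⟫_ℂ := by
    apply Finset.sum_congr rfl
    intro i _
    rw [← inner_sum, hy, ← hQ, hx]
  have hcross2 : ∑ i, ∑ j ∈ Finset.univ.erase i, ⟪S i j (x i), x j⟫_ℂ = ∑ i, ⟪y i, x i⟫_ℂ := by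
    have : ∀ i, ⟪y i, x i⟫_ℂ = ∑ j ∈ Finset.univ.erase i, ⟪S j i (x j), x i⟫_ℂ := by
      intro i
      rw [← sum_inner, hy, hQ, hx]
    simp only [this]
    exact sum_erase_swap (fun i j => ⟪S i j (x i), x j⟫_ℂ)
  have hV : ‖∑ i, x i‖ ^ 2 = ∑ i, (‖x i‖ ^ 2 + 2 * (⟪x i, y i⟫_ℂ).re) := by
    have h1 : ((‖∑ i, x i‖ ^ 2 : ℝ) : ℂ) = ⟪∑ i, x i, ∑ i, x i⟫_ℂ := by
      rw [inner_self_eq_norm_sq_to_K]; simp
    have h2 : ⟪∑ i, x i, ∑ i, x i⟫_ℂ =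
        ∑ i, ⟪x i, x i⟫_ℂ + ∑ i, ∑ j ∈ Finset.univ.erase i, ⟪x i, x j⟫_ℂ := by
      rw [sum_inner, ← Finset.sum_add_distrib]
      apply Finset.sum_congr rfl
      intro i _
      rw [inner_sum, Finset.add_sum_erase Finset.univ (fun j => ⟪x i, x j⟫_ℂ) (Finset.mem_univ i)]
    have h3 : ∑ i, ∑ j ∈ Finset.univ.erase i, ⟪x i, x j⟫_ℂ =
        ∑ i, ⟪y i, x i⟫_ℂ + ∑ i, ⟪x i, y i⟫_ℂ := by
      rw [← hcross, ← hcross2, ← Finset.sum_add_distrib]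
      apply Finset.sum_congr rfl
      intro i _
      rw [← Finset.sum_add_distrib]
      apply Finset.sum_congr rfl
      intro j hj
      exact hS i j (Ne.symm (Finset.ne_of_mem_erase hj)) _ _
    have h4 := congrArg Complex.re (h1.trans (h2.trans (by rw [h3])))
    rw [Complex.ofReal_re] at h4
    rw [h4]
    simp only [Complex.add_re, Complex.re_sum, Finset.sum_add_distrib, ← Finset.mul_sum]
    have h5 : ∀ i, (⟪y i, x i⟫_ℂ).re = (⟪x i, y i⟫_ℂ).re := by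
      intro i
      rw [← inner_conj_symm, Complex.conj_re]
    have h6 : ∀ i, (⟪x i, x i⟫_ℂ).re = ‖x i‖ ^ 2 := by
      intro i
      rw [inner_self_eq_norm_sq_to_K, ← RCLike.ofReal_pow]
      simp [← Complex.ofReal_pow]
    simp only [h5, h6]
    ring
  -- the pointwise inequality
  have hpt : ∀ i, ‖x i - (2 * n : ℂ) • M i (x i) + y i‖ ^ 2 ≤
      ‖x i‖ ^ 2 + 2 * (⟪x i, y i⟫_ℂ).re + 2 * ‖y i‖ ^ 2
        - 2 * n * (⟪x i, M i (x i)⟫_ℂ).re := by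
    intro i
    have e1 : x i - (2 * n : ℂ) • M i (x i) + y i = x i + (y i - (2 * n : ℂ) • M i (x i)) := by
      abel
    rw [e1]
    have e2 := @norm_add_sq ℂ H _ _ _ (x i) (y i - (2 * n : ℂ) • M i (x i))
    rw [e2]
    have e3 : ‖y i - (2 * n : ℂ) • M i (x i)‖ ^ 2 ≤
        2 * ‖y i‖ ^ 2 + 2 * ‖(2 * n : ℂ) • M i (x i)‖ ^ 2 := by
      have := parallelogram_law_with_norm ℂ (y i) ((2 * n : ℂ) • M i (x i))
      nlinarith [sq_nonneg ‖y i + (2 * n : ℂ) • M i (x i)‖]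
    have e4 : ‖(2 * n : ℂ) • M i (x i)‖ ^ 2 = 4 * n ^ 2 * ‖M i (x i)‖ ^ 2 := by
      rw [norm_smul, mul_pow]
      congr 1
      have : (2 * n : ℂ) = ((2 * n : ℝ) : ℂ) := by push_cast; ring
      rw [this, Complex.norm_real, Real.norm_eq_abs, sq_abs]
      ring
    have e5 : (⟪x i, y i - (2 * n : ℂ) • M i (x i)⟫_ℂ).re =
        (⟪x i, y i⟫_ℂ).re - 2 * n * (⟪x i, M i (x i)⟫_ℂ).re := by
      rw [inner_sub_right, inner_smul_right]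
      have : (2 * n : ℂ) = ((2 * n : ℝ) : ℂ) := by push_cast; ring
      rw [this, Complex.sub_re, Complex.re_ofReal_mul]
    have e6 : RCLike.re (⟪x i, y i - (2 * n : ℂ) • M i (x i)⟫_ℂ) =
        (⟪x i, y i⟫_ℂ).re - 2 * n * (⟪x i, M i (x i)⟫_ℂ).re := e5
    rw [e6]
    have e7 := hc i
    have e8 : 8 * n ^ 2 * ‖M i (x i)‖ ^ 2 ≤ 2 * n * (⟪x i, M i (x i)⟫_ℂ).re := by
      have := mul_le_mul_of_nonneg_left e7 (by positivity : 0 ≤ 2 * n)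
      nlinarith
    nlinarith
  -- the sum of the squares of the `y i`
  have hysum : ∑ i, ‖y i‖ ^ 2 ≤ n * ∑ i, (⟪x i, M i (x i)⟫_ℂ).re := by
    have s1 : ∀ i, ‖y i‖ ^ 2 ≤ n * ∑ j ∈ Finset.univ.erase i, ‖S j i (x j)‖ ^ 2 := by
      intro i
      calc ‖y i‖ ^ 2 ≤ ‖∑ j ∈ Finset.univ.erase i, S j i (x j)‖ ^ 2 := by
            have := hQn i (∑ j ∈ Finset.univ.erase i, S j i (x j))
            gcongr
        _ ≤ (Finset.univ.erase i).card * ∑ j ∈ Finset.univ.erase i, ‖S j i (x j)‖ ^ 2 :=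
            norm_sum_sq_le _ _
        _ ≤ n * ∑ j ∈ Finset.univ.erase i, ‖S j i (x j)‖ ^ 2 := by
            gcongr
            refine le_trans ?_ hn
            exact_mod_cast Finset.card_le_univ _
    have s2 : ∑ i, ∑ j ∈ Finset.univ.erase i, ‖S j i (x j)‖ ^ 2 =
        ∑ i, ∑ j ∈ Finset.univ.erase i, ‖S i j (x i)‖ ^ 2 :=
      sum_erase_swap (fun i j => ‖S j i (x j)‖ ^ 2)
    calc ∑ i, ‖y i‖ ^ 2 ≤ ∑ i, n * ∑ j ∈ Finset.univ.erase i, ‖S j i (x j)‖ ^ 2 :=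
          Finset.sum_le_sum (fun i _ => s1 i)
      _ = n * ∑ i, ∑ j ∈ Finset.univ.erase i, ‖S i j (x i)‖ ^ 2 := by
          rw [← Finset.mul_sum, s2]
      _ = _ := by simp only [hM]
  rw [hV]
  calc _ ≤ ∑ i, (‖x i‖ ^ 2 + 2 * (⟪x i, y i⟫_ℂ).re + 2 * ‖y i‖ ^ 2
        - 2 * n * (⟪x i, M i (x i)⟫_ℂ).re) := Finset.sum_le_sum (fun i _ => hpt i)
    _ = ∑ i, (‖x i‖ ^ 2 + 2 * (⟪x i, y i⟫_ℂ).re) +
        (2 * ∑ i, ‖y i‖ ^ 2 - 2 * n * ∑ i, (⟪x i, M i (x i)⟫_ℂ).re) := by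
        simp only [Finset.sum_sub_distrib, Finset.sum_add_distrib, ← Finset.mul_sum]
        ring
    _ ≤ _ := by
        have : 2 * n * ∑ i, (⟪x i, M i (x i)⟫_ℂ).re = 2 * (n * ∑ i, (⟪x i, M i (x i)⟫_ℂ).re) := by
          ring
        linarith

end Quad

end Pool.Agent.H811R3.Tr
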