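import Mathlib
import Pool.Agent.H811R3.Tr1
import Pool.Agent.H811R3.Tr2

open Matrix
open scoped ComplexOrder MatrixOrder InnerProductSpace

namespace Pool.Agent.H811R3.Tr

variable {m : Type*} [Fintype m] [DecidableEq m]

lemma trace_std (X : Matrix m m ℂ) :
    X.trace = ∑ k, ⟪EuclideanSpace.single k (1 : ℂ), E X (EuclideanSpace.single k 1)⟫_ℂ := by
  rw [Matrix.trace]
  apply Finset.sum_congr rfl
  intro k _
  rw [EuclideanSpace.inner_single_left]
  simp [E, Matrix.toLpLin_apply]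

lemma trace_basis {U : Matrix m m ℂ} (h2 : U * Uᴴ = 1) (X : Matrix m m ℂ) :
    X.trace = ∑ k, ⟪E U (EuclideanSpace.single k (1 : ℂ)),
      E X (E U (EuclideanSpace.single k 1))⟫_ℂ := by
  have h : X.trace = (Uᴴ * X * U).trace := by
    rw [Matrix.trace_mul_comm, ← Matrix.mul_assoc, h2, Matrix.one_mul]
  rw [h, trace_std]
  apply Finset.sum_congr rfl
  intro k _
  rw [E_mul, E_mul, E_inner, conjTranspose_conjTranspose]

lemma norm_E_unitary {U : Matrix m m ℂ} (h1 : Uᴴ * U = 1) (x : EuclideanSpace ℂ m) :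
    ‖E U x‖ = ‖x‖ := by
  have h : ⟪E U x, E U x⟫_ℂ = ⟪x, x⟫_ℂ := by
    rw [E_inner', ← E_mul, h1, E_one]
  rw [inner_self_eq_norm_sq_to_K, inner_self_eq_norm_sq_to_K] at h
  have h' : (‖E U x‖ ^ 2 : ℝ) = ‖x‖ ^ 2 := by exact_mod_cast h
  exact (sq_eq_sq₀ (norm_nonneg _) (norm_nonneg _)).mp h'

lemma norm_sq_E (A : Matrix m m ℂ) (x : EuclideanSpace ℂ m) :
    ‖E A x‖ ^ 2 = (⟪x, E (Aᴴ * A) x⟫_ℂ).re := by
  rw [E_mul, E_inner, conjTranspose_conjTranspose, inner_self_eq_norm_sq_to_K]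
  norm_cast

/-- Duality: lower bound of the trace of a square root. -/
lemma duality {ι : Type*} [Fintype ι] (A K : ι → Matrix m m ℂ) (T : Matrix m m ℂ)
    (hT : T.PosSemidef) (hTA : T * T = ∑ j, (A j)ᴴ * A j)
    (hK : ∀ v : EuclideanSpace ℂ m, ∑ j, ‖E (K j) v‖ ^ 2 ≤ ‖v‖ ^ 2) :
    ∑ j, ((K j)ᴴ * A j).trace.re ≤ T.trace.re := by
  obtain ⟨U, τ, h1, h2, h3, h4⟩ := spec hT.1
  have h4 := h4 hT
  set u : m → EuclideanSpace ℂ m := fun k => E U (EuclideanSpace.single k (1 : ℂ)) with hu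
  have hun : ∀ k, ‖u k‖ = 1 := by
    intro k
    rw [hu, norm_E_unitary h1]
    simp
  have hTu : ∀ k, E T (u k) = (τ k : ℂ) • u k := by
    intro k
    have e1 : T * U = U * diagonal (fun k => (τ k : ℂ)) := by
      conv_lhs => rw [h3]
      rw [Matrix.mul_assoc, h1, Matrix.mul_one]
    rw [hu, ← E_mul, e1, E_mul]
    have e2 : E (diagonal fun k => (τ k : ℂ)) (EuclideanSpace.single k (1 : ℂ)) =
        (τ k : ℂ) • EuclideanSpace.single k (1 : ℂ) := by
      ext i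
      simp [E, Matrix.toLpLin_apply]
    rw [e2, map_smul]
  have hk : ∀ k, ∑ j, (⟪u k, E ((K j)ᴴ * A j) (u k)⟫_ℂ).re ≤ (⟪u k, E T (u k)⟫_ℂ).re := by
    intro k
    have t1 : (⟪u k, E T (u k)⟫_ℂ).re = τ k := by
      rw [hTu, inner_smul_right, inner_self_eq_norm_sq_to_K, hun]
      simp
    have t2 : ∑ j, ‖E (A j) (u k)‖ ^ 2 = τ k ^ 2 := by
      simp only [norm_sq_E]
      rw [← Complex.re_sum, ← inner_sum]
      have : ∑ j, E ((A j)ᴴ * A j) (u k) = E (T * T) (u k) := by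
        rw [hTA]
        simp [E, LinearMap.sum_apply]
      rw [this, E_mul, hTu, map_smul, hTu, inner_smul_right, inner_smul_right,
        inner_self_eq_norm_sq_to_K, hun]
      simp only [Complex.coe_algebraMap, Complex.ofReal_one, one_pow, mul_one]
      rw [← Complex.ofReal_mul, Complex.ofReal_re]
      ring
    have t3 : ∀ j, (⟪u k, E ((K j)ᴴ * A j) (u k)⟫_ℂ).re ≤
        ‖E (K j) (u k)‖ * ‖E (A j) (u k)‖ := by
      intro j
      rw [E_mul, E_inner, conjTranspose_conjTranspose]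
      exact (Complex.re_le_norm _).trans (norm_inner_le_norm _ _)
    have t4 := Finset.sum_mul_sq_le_sq_mul_sq Finset.univ (fun j => ‖E (K j) (u k)‖)
      (fun j => ‖E (A j) (u k)‖)
    rw [t2] at t4
    have t5 := hK (u k)
    rw [hun] at t5
    have t6 : ∑ j, ‖E (K j) (u k)‖ * ‖E (A j) (u k)‖ ≤ τ k := by
      apply le_of_sq_le_sq _ (h4 k)
      calc _ ≤ _ := t4
        _ ≤ 1 ^ 2 * τ k ^ 2 := by gcongr
        _ = _ := by ring
    rw [t1]
    exact (Finset.sum_le_sum (fun j _ => t3 j)).trans t6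
  have e1 : ∀ j, ((K j)ᴴ * A j).trace.re = ∑ k, (⟪u k, E ((K j)ᴴ * A j) (u k)⟫_ℂ).re := by
    intro j
    rw [trace_basis h2, Complex.re_sum]
  simp only [e1]
  rw [Finset.sum_comm, trace_basis h2 T, Complex.re_sum]
  exact Finset.sum_le_sum (fun k _ => hk k)

lemma tr_diag (l : m → ℝ) (X : Matrix m m ℂ) :
    (diagonal (fun k => (l k : ℂ)) * (X * Xᴴ)).trace.re = ∑ k, ∑ j, l k * ‖X k j‖ ^ 2 := by
  rw [Matrix.trace, Complex.re_sum]
  apply Finset.sum_congr rfl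
  intro k _
  rw [Matrix.diag_apply, Matrix.diagonal_mul, Matrix.mul_apply, Complex.re_ofReal_mul,
    Complex.re_sum, Finset.mul_sum]
  apply Finset.sum_congr rfl
  intro j _
  rw [conjTranspose_apply, Complex.star_def, Complex.mul_conj, Complex.ofReal_re,
    Complex.normSq_eq_norm_sq]

lemma tr_proj {U W P : Matrix m m ℂ} (l : m → ℝ) (hW : W * Wᴴ = 1)
    (hP : Pᴴ = P) (hPP : P * P = P) :
    ((U * diagonal (fun k => (l k : ℂ)) * Uᴴ) * P).trace.re =
      ∑ k, ∑ j, l k * ‖(Uᴴ * P * W) k j‖ ^ 2 := by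
  rw [← tr_diag]
  congr 1
  have e : (Uᴴ * P * W) * (Uᴴ * P * W)ᴴ = Uᴴ * P * U := by
    rw [conjTranspose_mul, conjTranspose_mul, conjTranspose_conjTranspose, hP]
    calc Uᴴ * P * W * (Wᴴ * (P * U)) = Uᴴ * P * (W * Wᴴ) * (P * U) := by
          simp only [Matrix.mul_assoc]
      _ = Uᴴ * (P * P) * U := by rw [hW]; simp only [Matrix.mul_one, Matrix.mul_assoc]
      _ = _ := by rw [hPP]
  rw [e]
  calc (U * diagonal (fun k => (l k : ℂ)) * Uᴴ * P).trace
      = (U * (diagonal (fun k => (l k : ℂ)) * Uᴴ * P)).trace := by simp only [Matrix.mul_assoc]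
    _ = ((diagonal (fun k => (l k : ℂ)) * Uᴴ * P) * U).trace := Matrix.trace_mul_comm _ _
    _ = _ := by simp only [Matrix.mul_assoc]

/-- The lower bound of Nussbaum and Szkola for the error of a binary test. -/
lemma nussbaum_szkola {U W : Matrix m m ℂ} {l μ : m → ℝ}
    (hU2 : U * Uᴴ = 1) (hW2 : W * Wᴴ = 1)
    (hl : ∀ k, 0 ≤ l k) (hμ : ∀ k, 0 ≤ μ k) {A B : Matrix m m ℂ}
    (hA : A = U * diagonal (fun k => (l k : ℂ)) * Uᴴ)
    (hB : B = W * diagonal (fun k => (μ k : ℂ)) * Wᴴ) :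
    ∑ k, ∑ j, min (l k) (μ j) * ‖(Uᴴ * W) k j‖ ^ 2 ≤
      (A + B).trace.re - (CFC.sqrt ((A - B)ᴴ * (A - B))).trace.re := by
  have hAh : A.IsHermitian := by rw [hA]; exact (psd_conj hl).1
  have hBh : B.IsHermitian := by rw [hB]; exact (psd_conj hμ).1
  have hH : (A - B).IsHermitian := hAh.sub hBh
  obtain ⟨Z, h, z1, z2, z3, -⟩ := spec hH
  -- the projection
  let p : m → ℝ := fun k => if h k < 0 then 1 else 0
  set P : Matrix m m ℂ := Z * diagonal (fun k => (p k : ℂ)) * Zᴴ with hPdef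
  have hP : Pᴴ = P := (psd_conj (fun k => by simp only [p]; split_ifs <;> norm_num)).1
  have hPP : P * P = P := by
    rw [hPdef, conj_mul z1]
    have : ∀ k, p k * p k = p k := by intro k; simp only [p]; split_ifs <;> norm_num
    simp only [this]
  have hsq : CFC.sqrt ((A - B)ᴴ * (A - B)) = (A - B) - 2 * ((A - B) * P) := by
    have e0 : (A - B) - 2 * ((A - B) * P) = Z * diagonal (fun k => ((|h k| : ℝ) : ℂ)) * Zᴴ := by
      have e1 : (A - B) * P = Z * diagonal (fun k => ((h k * p k : ℝ) : ℂ)) * Zᴴ := by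
        rw [hPdef, ← conj_mul z1, ← z3]
      have e2 : (2 : Matrix m m ℂ) * ((A - B) * P) = ((2 : ℝ) : ℂ) • ((A - B) * P) := by
        rw [two_mul, Complex.ofReal_ofNat, two_smul]
      rw [e2, e1, conj_smul]
      conv_lhs => rw [z3]
      rw [conj_sub]
      have : ∀ k, h k - 2 * (h k * p k) = |h k| := by
        intro k
        simp only [p]
        split_ifs with hk
        · rw [abs_of_neg hk]; ring
        · rw [abs_of_nonneg (not_lt.mp hk)]; ring
      simp only [this]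
    rw [e0]
    apply CFC.sqrt_unique
    · rw [conj_mul z1, hH.eq]
      conv_rhs => rw [z3]
      rw [conj_mul z1]
      have : ∀ k, |h k| * |h k| = h k * h k := fun k => abs_mul_abs_self _
      simp only [this]
    · exact (psd_conj (fun k => abs_nonneg (h k))).nonneg
  have hP1 : (1 - P)ᴴ = 1 - P := by rw [conjTranspose_sub, conjTranspose_one, hP]
  have hPP1 : (1 - P) * (1 - P) = 1 - P := by
    rw [Matrix.mul_sub, Matrix.mul_one, Matrix.sub_mul, Matrix.one_mul, hPP]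
    abel
  have hmain : (A + B).trace.re - (CFC.sqrt ((A - B)ᴴ * (A - B))).trace.re =
      2 * (A * P).trace.re + 2 * (B * (1 - P)).trace.re := by
    rw [hsq]
    have e : (A - B) - 2 * ((A - B) * P) = A - B - (A * P + A * P) + (B * P + B * P) := by
      rw [two_mul, Matrix.sub_mul]
      abel
    rw [e]
    simp only [Matrix.trace_add, Matrix.trace_sub, Matrix.mul_sub, Matrix.mul_one,
      Complex.add_re, Complex.sub_re]
    ring
  rw [hmain, hA, hB, tr_proj l hW2 hP hPP, tr_proj μ hU2 hP1 hPP1]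
  have hsw : ∑ k, ∑ j, μ k * ‖(Wᴴ * (1 - P) * U) k j‖ ^ 2 =
      ∑ k, ∑ j, μ j * ‖(Uᴴ * (1 - P) * W) k j‖ ^ 2 := by
    rw [Finset.sum_comm]
    apply Finset.sum_congr rfl
    intro k _
    apply Finset.sum_congr rfl
    intro j _
    have : (Uᴴ * (1 - P) * W)ᴴ = Wᴴ * (1 - P) * U := by
      rw [conjTranspose_mul, conjTranspose_mul, conjTranspose_conjTranspose, hP1, Matrix.mul_assoc]
    rw [← this, conjTranspose_apply, norm_star]
  rw [hsw, Finset.mul_sum, Finset.mul_sum, ← Finset.sum_add_distrib]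
  apply Finset.sum_le_sum
  intro k _
  rw [Finset.mul_sum, Finset.mul_sum, ← Finset.sum_add_distrib]
  apply Finset.sum_le_sum
  intro j _
  have e1 : (Uᴴ * W) k j = (Uᴴ * P * W) k j + (Uᴴ * (1 - P) * W) k j := by
    rw [← Matrix.add_apply, ← Matrix.add_mul, ← Matrix.mul_add]
    simp
  rw [e1]
  set a := (Uᴴ * P * W) k j
  set b := (Uᴴ * (1 - P) * W) k j
  have e2 : ‖a + b‖ ^ 2 ≤ 2 * (‖a‖ ^ 2 + ‖b‖ ^ 2) := by
    have := norm_add_le a b
    nlinarith [norm_nonneg (a + b), norm_nonneg a, norm_nonneg b, sq_nonneg (‖a‖ - ‖b‖)]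
  have e3 : 0 ≤ min (l k) (μ j) := le_min (hl k) (hμ j)
  have e4 := min_le_left (l k) (μ j)
  have e5 := min_le_right (l k) (μ j)
  calc min (l k) (μ j) * ‖a + b‖ ^ 2 ≤ min (l k) (μ j) * (2 * (‖a‖ ^ 2 + ‖b‖ ^ 2)) := by gcongr
    _ = 2 * (min (l k) (μ j) * ‖a‖ ^ 2) + 2 * (min (l k) (μ j) * ‖b‖ ^ 2) := by ring
    _ ≤ 2 * (l k * ‖a‖ ^ 2) + 2 * (μ j * ‖b‖ ^ 2) := by gcongr

end Pool.Agent.H811R3.Tr
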