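import Mathlib
import Pool.Agent.H811R3.Tr3

open Matrix
open scoped ComplexOrder MatrixOrder InnerProductSpace

namespace Pool.Agent.H811R3.Tr

variable {m : Type*} [Fintype m] [DecidableEq m]

section Fixed

variable {n : ℕ} (U : Fin n → Matrix m m ℂ) (l : Fin n → m → ℝ)

open Classical in
/-- The comparison matrix of the eigenvalues. -/
noncomputable def chi (i j : Fin n) (k k' : m) : ℝ :=
  if l i k < l j k' ∨ (l i k = l j k' ∧ i < j) then 1 else 0

/-- The part of `U i * (U j)ᴴ`-overlap where the eigenvalue of `i` is the smaller one. -/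
noncomputable def C (i j : Fin n) : Matrix m m ℂ :=
  Matrix.of fun k k' => (chi l i j k k' : ℂ) * ((U i)ᴴ * U j) k k'

noncomputable def T (i j : Fin n) : Matrix m m ℂ := U i * C U l i j * (U j)ᴴ

noncomputable def Mm (i : Fin n) : Matrix m m ℂ := ∑ j ∈ Finset.univ.erase i, T U l i j * (T U l i j)ᴴ

omit [Fintype m] [DecidableEq m] in
lemma chi_add {i j : Fin n} (h : i ≠ j) (k k' : m) : chi l i j k k' + chi l j i k' k = 1 := by
  unfold chi
  rcases lt_trichotomy (l i k) (l j k') with h1 | h1 | h1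
  · have h2 : ¬ (l j k' < l i k ∨ (l j k' = l i k ∧ j < i)) := by
      rintro (h3 | h3)
      · exact absurd h1 (not_lt.mpr h3.le)
      · exact absurd h3.1.symm h1.ne
    rw [if_pos (Or.inl h1), if_neg h2]; norm_num
  · rcases lt_or_gt_of_ne h with h3 | h3
    · have h2 : ¬ (l j k' < l i k ∨ (l j k' = l i k ∧ j < i)) := by
        rintro (h4 | h4)
        · exact absurd h1 h4.ne'
        · exact absurd h3 (not_lt.mpr h4.2.le)
      rw [if_pos (Or.inr ⟨h1, h3⟩), if_neg h2]; norm_num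
    · have h2 : ¬ (l i k < l j k' ∨ (l i k = l j k' ∧ i < j)) := by
        rintro (h4 | h4)
        · exact absurd h1 h4.ne
        · exact absurd h3 (not_lt.mpr h4.2.le)
      rw [if_neg h2, if_pos (Or.inr ⟨h1.symm, h3⟩)]; norm_num
  · have h2 : ¬ (l i k < l j k' ∨ (l i k = l j k' ∧ i < j)) := by
      rintro (h3 | h3)
      · exact absurd h1 (not_lt.mpr h3.le)
      · exact absurd h3.1.symm h1.ne
    rw [if_neg h2, if_pos (Or.inl h1)]; norm_num

omit [DecidableEq m] in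
lemma C_add {i j : Fin n} (h : i ≠ j) : C U l i j + (C U l j i)ᴴ = (U i)ᴴ * U j := by
  ext k k'
  rw [Matrix.add_apply, conjTranspose_apply]
  simp only [C, Matrix.of_apply]
  have e1 : ((U i)ᴴ * U j) k k' = star (((U j)ᴴ * U i) k' k) := by
    rw [← conjTranspose_apply, conjTranspose_mul, conjTranspose_conjTranspose]
  rw [star_mul', ← e1]
  have e2 : star ((chi l j i k' k : ℝ) : ℂ) = ((chi l j i k' k : ℝ) : ℂ) := by
    rw [Complex.star_def, Complex.conj_ofReal]
  rw [e2, ← add_mul, ← Complex.ofReal_add, chi_add l h, Complex.ofReal_one, one_mul]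

lemma T_add (h2 : ∀ i, U i * (U i)ᴴ = 1) {i j : Fin n} (h : i ≠ j) :
    T U l i j + (T U l j i)ᴴ = 1 := by
  unfold T
  rw [conjTranspose_mul, conjTranspose_mul, conjTranspose_conjTranspose, ← Matrix.mul_assoc,
    ← Matrix.add_mul, ← Matrix.mul_add, C_add U l h]
  calc U i * ((U i)ᴴ * U j) * (U j)ᴴ = (U i * (U i)ᴴ) * (U j * (U j)ᴴ) := by
        simp only [Matrix.mul_assoc]
    _ = 1 := by rw [h2, h2, Matrix.one_mul]

lemma T_mul (h1 : ∀ i, (U i)ᴴ * U i = 1) (i j : Fin n) :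
    T U l i j * (T U l i j)ᴴ = U i * (C U l i j * (C U l i j)ᴴ) * (U i)ᴴ := by
  unfold T
  rw [conjTranspose_mul, conjTranspose_mul, conjTranspose_conjTranspose]
  calc U i * C U l i j * (U j)ᴴ * (U j * ((C U l i j)ᴴ * (U i)ᴴ))
      = U i * C U l i j * ((U j)ᴴ * U j) * ((C U l i j)ᴴ * (U i)ᴴ) := by
        simp only [Matrix.mul_assoc]
    _ = _ := by rw [h1, Matrix.mul_one]; simp only [Matrix.mul_assoc]

lemma trace_T (h1 : ∀ i, (U i)ᴴ * U i = 1) (i j : Fin n) :
    ((U i * diagonal (fun k => (l i k : ℂ)) * (U i)ᴴ) *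
      (T U l i j * (T U l i j)ᴴ)).trace.re =
      ∑ k, ∑ k', l i k * (chi l i j k k' * ‖((U i)ᴴ * U j) k k'‖ ^ 2) := by
  have e : ((U i * diagonal (fun k => (l i k : ℂ)) * (U i)ᴴ) *
      (T U l i j * (T U l i j)ᴴ)).trace =
      (diagonal (fun k => (l i k : ℂ)) * (C U l i j * (C U l i j)ᴴ)).trace := by
    rw [T_mul U l h1]
    calc (U i * diagonal (fun k => (l i k : ℂ)) * (U i)ᴴ *
          (U i * (C U l i j * (C U l i j)ᴴ) * (U i)ᴴ)).trace
        = (U i * diagonal (fun k => (l i k : ℂ)) * ((U i)ᴴ * U i) *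
          ((C U l i j * (C U l i j)ᴴ) * (U i)ᴴ)).trace := by simp only [Matrix.mul_assoc]
      _ = (U i * (diagonal (fun k => (l i k : ℂ)) *
          ((C U l i j * (C U l i j)ᴴ) * (U i)ᴴ))).trace := by
            rw [h1, Matrix.mul_one, Matrix.mul_assoc]
      _ = ((diagonal (fun k => (l i k : ℂ)) *
          ((C U l i j * (C U l i j)ᴴ) * (U i)ᴴ)) * U i).trace := Matrix.trace_mul_comm _ _
      _ = (diagonal (fun k => (l i k : ℂ)) *
          ((C U l i j * (C U l i j)ᴴ) * ((U i)ᴴ * U i))).trace := by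
            simp only [Matrix.mul_assoc]
      _ = _ := by rw [h1, Matrix.mul_one]
  rw [e, tr_diag]
  apply Finset.sum_congr rfl
  intro k _
  apply Finset.sum_congr rfl
  intro k' _
  congr 1
  simp only [C, Matrix.of_apply]
  rw [norm_mul, mul_pow, Complex.norm_real, Real.norm_eq_abs, sq_abs]
  congr 1
  unfold chi
  split_ifs <;> norm_num

omit [Fintype m] [DecidableEq m] in
lemma chi_min {i j : Fin n} (h : i ≠ j) (k k' : m) :
    l i k * chi l i j k k' + l j k' * chi l j i k' k = min (l i k) (l j k') := by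
  unfold chi
  rcases lt_trichotomy (l i k) (l j k') with h1 | h1 | h1
  · have h2 : ¬ (l j k' < l i k ∨ (l j k' = l i k ∧ j < i)) := by
      rintro (h3 | h3)
      · exact absurd h1 (not_lt.mpr h3.le)
      · exact absurd h3.1.symm h1.ne
    rw [if_pos (Or.inl h1), if_neg h2, min_eq_left h1.le]; ring
  · rcases lt_or_gt_of_ne h with h3 | h3
    · have h2 : ¬ (l j k' < l i k ∨ (l j k' = l i k ∧ j < i)) := by
        rintro (h4 | h4)
        · exact absurd h1 h4.ne'
        · exact absurd h3 (not_lt.mpr h4.2.le)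
      rw [if_pos (Or.inr ⟨h1, h3⟩), if_neg h2, min_eq_left h1.le]; ring
    · have h2 : ¬ (l i k < l j k' ∨ (l i k = l j k' ∧ i < j)) := by
        rintro (h4 | h4)
        · exact absurd h1 h4.ne
        · exact absurd h3 (not_lt.mpr h4.2.le)
      rw [if_neg h2, if_pos (Or.inr ⟨h1.symm, h3⟩), min_eq_right h1.ge]; ring
  · have h2 : ¬ (l i k < l j k' ∨ (l i k = l j k' ∧ i < j)) := by
      rintro (h3 | h3)
      · exact absurd h1 (not_lt.mpr h3.le)
      · exact absurd h3.1.symm h1.ne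
    rw [if_neg h2, if_pos (Or.inl h1), min_eq_right h1.le]; ring

end Fixed

lemma sum_erase_pair {n : ℕ} (f : Fin n → Fin n → ℝ) :
    ∑ i, ∑ j ∈ Finset.univ.erase i, f i j = ∑ i, ∑ j ∈ Finset.Ioi i, (f i j + f j i) := by
  have h1 : ∀ i : Fin n, ∑ j ∈ Finset.univ.erase i, f i j =
      ∑ j ∈ Finset.Ioi i, f i j + ∑ j ∈ Finset.Iio i, f i j := by
    intro i
    rw [← Finset.sum_union]
    · apply Finset.sum_congr _ (fun _ _ => rfl)
      ext j
      simp only [Finset.mem_erase, Finset.mem_univ, and_true, Finset.mem_union, Finset.mem_Ioi,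
        Finset.mem_Iio]
      constructor
      · intro h; exact (lt_or_gt_of_ne h).symm
      · rintro (h | h)
        · exact h.ne'
        · exact h.ne
    · rw [Finset.disjoint_left]
      intro j h1 h2
      simp only [Finset.mem_Ioi, Finset.mem_Iio] at h1 h2
      exact absurd h1 (not_lt.mpr h2.le)
  have h2 : ∑ i : Fin n, ∑ j ∈ Finset.Iio i, f i j = ∑ i : Fin n, ∑ j ∈ Finset.Ioi i, f j i := by
    apply Finset.sum_comm'
    intro i j
    simp
  simp only [h1, Finset.sum_add_distrib, h2]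

/-- The one-matrix estimate. -/
lemma one_estimate {Q M K : Matrix m m ℂ} {n : ℝ}
    (hQ : Qᴴ = Q) (hQQ : Q * Q = Q) (hQM : Q * M = M * Q)
    (hKc : ∀ v : EuclideanSpace ℂ m, ‖E K v‖ ≤ ‖v‖)
    (hKQ : ∀ v : EuclideanSpace ℂ m, E K (E Q v) = E Q v - (2 * n : ℂ) • E M (E Q v))
    {A : Matrix m m ℂ} (hA : A.PosSemidef)
    (hM1 : (M - ((1 / (4 * n) : ℝ) : ℂ) • (1 - Q)).PosSemidef) (hM2 : (M - M * Q).PosSemidef)
    (hn' : 0 < n) :
    (A * (1 - K)).trace.re ≤ 20 * n * (A * M).trace.re := by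
  have s1 : (A * (1 - K)).trace.re ≤
      (A * (((4 * n : ℝ) : ℂ) • (M * Q) + ((4 : ℝ) : ℂ) • (1 - Q))).trace.re := by
    apply trace_mono' hA
    intro x
    set a := E Q x with ha
    set b := x - E Q x with hb
    have hx : x = a + b := by rw [ha, hb]; abel
    have hform : ∀ v : EuclideanSpace ℂ m, (⟪v, E (1 - K) v⟫_ℂ).re =
        ‖v‖ ^ 2 - (⟪v, E K v⟫_ℂ).re := by
      intro v
      rw [E_sub, E_one, inner_sub_right, Complex.sub_re, inner_self_eq_norm_sq_to_K]
      norm_cast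
    have hpos : ∀ v : EuclideanSpace ℂ m, 0 ≤ (⟪v, E (1 - K) v⟫_ℂ).re := by
      intro v
      rw [hform]
      have h1 : (⟪v, E K v⟫_ℂ).re ≤ ‖v‖ * ‖E K v‖ :=
        (Complex.re_le_norm _).trans (norm_inner_le_norm _ _)
      have h2 := hKc v
      nlinarith [norm_nonneg v]
    have hle : ∀ v : EuclideanSpace ℂ m, (⟪v, E (1 - K) v⟫_ℂ).re ≤ 2 * ‖v‖ ^ 2 := by
      intro v
      rw [hform]
      have h1 : -(⟪v, E K v⟫_ℂ).re ≤ ‖v‖ * ‖E K v‖ :=
        ((neg_le_abs _).trans (Complex.abs_re_le_norm _)).trans (norm_inner_le_norm _ _)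
      have h2 := hKc v
      nlinarith [norm_nonneg v]
    have hpar : (⟪a + b, E (1 - K) (a + b)⟫_ℂ).re + (⟪a - b, E (1 - K) (a - b)⟫_ℂ).re =
        2 * (⟪a, E (1 - K) a⟫_ℂ).re + 2 * (⟪b, E (1 - K) b⟫_ℂ).re := by
      simp only [map_add, map_sub, inner_add_left, inner_add_right, inner_sub_left,
        inner_sub_right, Complex.add_re, Complex.sub_re]
      ring
    have hhb := hle b
    have hab := hpos (a - b)
    have hha : (⟪a, E (1 - K) a⟫_ℂ).re = 2 * n * (⟪x, E (M * Q) x⟫_ℂ).re := by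
      have e1 : E (1 - K) a = (2 * n : ℂ) • E M a := by
        rw [E_sub, E_one, ha, hKQ]; abel
      rw [e1, inner_smul_right]
      have e2 : (2 * n : ℂ) = ((2 * n : ℝ) : ℂ) := by push_cast; ring
      rw [e2, Complex.re_ofReal_mul]
      congr 2
      rw [ha, E_inner', hQ, ← E_mul, ← E_mul]
      rw [hQM, Matrix.mul_assoc, hQQ]
    have hbb : ‖b‖ ^ 2 = (⟪x, E (1 - Q) x⟫_ℂ).re := by
      have e1 : b = E (1 - Q) x := by rw [hb, E_sub, E_one]
      rw [e1, norm_sq_E]
      have e2 : (1 - Q)ᴴ * (1 - Q) = 1 - Q := by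
        rw [conjTranspose_sub, conjTranspose_one, hQ, Matrix.mul_sub, Matrix.mul_one,
          Matrix.sub_mul, Matrix.one_mul, hQQ]
        abel
      rw [e2]
    have hr : (⟪x, E (((4 * n : ℝ) : ℂ) • (M * Q) + ((4 : ℝ) : ℂ) • (1 - Q)) x⟫_ℂ).re =
        4 * n * (⟪x, E (M * Q) x⟫_ℂ).re + 4 * (⟪x, E (1 - Q) x⟫_ℂ).re := by
      rw [E_add, E_smul, E_smul, inner_add_right, inner_smul_right, inner_smul_right,
        Complex.add_re, Complex.re_ofReal_mul, Complex.re_ofReal_mul]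
    rw [hr, ← hbb]
    have : (⟪x, E (1 - K) x⟫_ℂ).re = (⟪a + b, E (1 - K) (a + b)⟫_ℂ).re := by rw [← hx]
    rw [this]
    rw [hha] at hpar
    linarith
  have s2 : (A * (M * Q)).trace.re ≤ (A * M).trace.re := by
    have := trace_nonneg' (X := M - M * Q) hA (fun x => psd_iff hM2 x)
    rw [Matrix.mul_sub, Matrix.trace_sub, Complex.sub_re] at this
    linarith
  have s3 : (A * (1 - Q)).trace.re ≤ 4 * n * (A * M).trace.re := by
    have := trace_nonneg' (X := M - ((1 / (4 * n) : ℝ) : ℂ) • (1 - Q)) hA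
      (fun x => psd_iff hM1 x)
    rw [Matrix.mul_sub, Matrix.trace_sub, Complex.sub_re, Matrix.mul_smul, Matrix.trace_smul,
      smul_eq_mul, Complex.re_ofReal_mul] at this
    have h4 : (A * (1 - Q)).trace.re = 4 * n * (1 / (4 * n) * (A * (1 - Q)).trace.re) := by
      field_simp
    rw [h4]
    have : 1 / (4 * n) * (A * (1 - Q)).trace.re ≤ (A * M).trace.re := by linarith
    gcongr
  have s4 : (A * (((4 * n : ℝ) : ℂ) • (M * Q) + ((4 : ℝ) : ℂ) • (1 - Q))).trace.re =
      4 * n * (A * (M * Q)).trace.re + 4 * (A * (1 - Q)).trace.re := by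
    rw [Matrix.mul_add, Matrix.mul_smul, Matrix.mul_smul, Matrix.trace_add, Matrix.trace_smul,
      Matrix.trace_smul, smul_eq_mul, smul_eq_mul, Complex.add_re, Complex.re_ofReal_mul,
      Complex.re_ofReal_mul]
  rw [s4] at s1
  have s5 : 4 * n * (A * (M * Q)).trace.re ≤ 4 * n * (A * M).trace.re := by gcongr
  linarith

/-- The trace inequality with constant `20 n`. -/
theorem main (n : ℕ) (A : Fin n → Matrix m m ℂ) (hA : ∀ j, (A j).PosSemidef) :
    ∑ j, (A j).trace.re - (CFC.sqrt (∑ j, A j ^ 2)).trace.re ≤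
      20 * n * ∑ j, ∑ k ∈ Finset.Ioi j, ((A j + A k).trace.re -
        (CFC.sqrt ((A j - A k)ᴴ * (A j - A k))).trace.re) := by
  rcases Nat.eq_zero_or_pos n with hn0 | hnpos
  · subst hn0
    simp
  have hn : (0 : ℝ) < n := by exact_mod_cast hnpos
  choose U l h1 h2 h3 h4 using fun j => spec (hA j).1
  have h4 : ∀ j k, 0 ≤ l j k := fun j => h4 j (hA j)
  let M : Fin n → Matrix m m ℂ := Mm U l
  have hMpsd : ∀ i, (M i).PosSemidef := by
    intro i
    apply Matrix.posSemidef_sum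
    intro j _
    exact Matrix.posSemidef_self_mul_conjTranspose _
  choose Q q1 q2 q3 q4 q5 q6 using fun i => spectral_cut (hMpsd i) (c := 1 / (4 * n))
  -- the two maps
  let H := EuclideanSpace ℂ m
  let V : (Fin n → H) →ₗ[ℂ] H := ∑ i, E (Q i) ∘ₗ LinearMap.proj i
  let R0 : Fin n → (Fin n → H) →ₗ[ℂ] H := fun i =>
    E (Q i) ∘ₗ LinearMap.proj i - (2 * n : ℂ) • (E (M i) ∘ₗ E (Q i) ∘ₗ LinearMap.proj i) +
      E (Q i) ∘ₗ ∑ j ∈ Finset.univ.erase i, E (T U l j i)ᴴ ∘ₗ E (Q j) ∘ₗ LinearMap.proj j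
  let R : (Fin n → H) →ₗ[ℂ] PiLp 2 (fun _ : Fin n => H) :=
    (WithLp.linearEquiv 2 ℂ (Fin n → H)).symm.toLinearMap ∘ₗ LinearMap.pi R0
  have hVapp : ∀ x, V x = ∑ i, E (Q i) (x i) := by
    intro x
    simp [V, LinearMap.sum_apply]
  have hR0app : ∀ i x, R0 i x = E (Q i) (x i) - (2 * n : ℂ) • E (M i) (E (Q i) (x i)) +
      E (Q i) (∑ j ∈ Finset.univ.erase i, E (T U l j i)ᴴ (E (Q j) (x j))) := by
    intro i x
    simp [R0, LinearMap.sum_apply]
  have hRapp : ∀ x i, R x i = R0 i x := by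
    intro x i
    simp [R]
  have hRV : ∀ x, ‖R x‖ ≤ ‖V x‖ := by
    intro x
    have key := key_quad (ι := Fin n) (H := H) (fun i => E (Q i)) (fun i => E (M i))
      (fun i j => E (T U l i j)ᴴ) (n : ℝ) (by simp)
      (fun i x y => by rw [E_inner', q1]) ?_ ?_ ?_ (fun i => E (Q i) (x i)) ?_ ?_
    · have e1 : ‖R x‖ ^ 2 ≤ ‖V x‖ ^ 2 := by
        rw [PiLp.norm_sq_eq_of_L2, hVapp]
        simp only [hRapp, hR0app]
        exact key
      exact le_of_sq_le_sq e1 (norm_nonneg _)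
    · -- norm of Q
      intro i v
      have e1 : ‖E (Q i) v‖ ^ 2 = (⟪v, E (Q i) v⟫_ℂ).re := by
        rw [norm_sq_E, q1, q2]
      have e2 : (⟪v, E (Q i) v⟫_ℂ).re ≤ ‖v‖ * ‖E (Q i) v‖ :=
        (Complex.re_le_norm _).trans (norm_inner_le_norm _ _)
      rw [← e1] at e2
      by_contra hcon
      push Not at hcon
      have : 0 < ‖E (Q i) v‖ := lt_of_le_of_lt (norm_nonneg _) hcon
      nlinarith
    · -- splitting of the inner product
      intro i j hij v w
      have e1 := T_add U l h2 hij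
      have e2 : ⟪E (T U l i j)ᴴ v, w⟫_ℂ = ⟪v, E (T U l i j) w⟫_ℂ := by
        rw [E_inner', conjTranspose_conjTranspose]
      rw [e2, ← inner_add_right, ← E_add, e1, E_one]
    · intro i v
      have e1 : ∀ j, ‖E (T U l i j)ᴴ v‖ ^ 2 =
          (⟪v, E (T U l i j * (T U l i j)ᴴ) v⟫_ℂ).re := by
        intro j
        rw [norm_sq_E, conjTranspose_conjTranspose]
      simp only [e1]
      rw [← Complex.re_sum, ← inner_sum]
      congr 2
      simp [M, Mm, E, LinearMap.sum_apply]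
    · intro i
      rw [← E_mul, q2]
    · intro i
      set z := x i
      have e1 : ‖E (M i) (E (Q i) z)‖ ^ 2 = (⟪z, E ((M i * Q i) * (M i * Q i)) z⟫_ℂ).re := by
        rw [← E_mul, norm_sq_E]
        congr 4
        rw [conjTranspose_mul, q1, (hMpsd i).1.eq, q3]
      have e2 := psd_iff (q6 i) z
      rw [E_sub, E_smul, inner_sub_right, inner_smul_right, Complex.sub_re,
        Complex.re_ofReal_mul, ← e1] at e2
      have e3 : (⟪E (Q i) z, E (M i) (E (Q i) z)⟫_ℂ).re = (⟪z, E (M i * Q i) z⟫_ℂ).re := by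
        rw [E_inner', q1, ← E_mul, ← E_mul, q3, Matrix.mul_assoc, q2]
      rw [e3]
      have e4 : ‖E (M i) (E (Q i) z)‖ ^ 2 ≤ 1 / (4 * n) * (⟪z, E (M i * Q i) z⟫_ℂ).re := by
        linarith
      calc 4 * (n : ℝ) * ‖E (M i) (E (Q i) z)‖ ^ 2
          ≤ 4 * (n : ℝ) * (1 / (4 * n) * (⟪z, E (M i * Q i) z⟫_ℂ).re) := by gcongr
        _ = _ := by field_simp
  obtain ⟨K, hK1, hK2⟩ := douglas V R hRV
  let K0 : Fin n → H →ₗ[ℂ] H := fun i =>
    LinearMap.proj i ∘ₗ (WithLp.linearEquiv 2 ℂ (Fin n → H)).toLinearMap ∘ₗ K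
  have hK0app : ∀ i v, K0 i v = K v i := by
    intro i v
    simp [K0]
  let Km : Fin n → Matrix m m ℂ := fun i => Matrix.toEuclideanLin.symm (K0 i)
  have hKm : ∀ i, E (Km i) = K0 i := by
    intro i
    simp [Km, E]
  have hKsum : ∀ v : EuclideanSpace ℂ m, ∑ j, ‖E (Km j) v‖ ^ 2 ≤ ‖v‖ ^ 2 := by
    intro v
    simp only [hKm, hK0app]
    rw [← PiLp.norm_sq_eq_of_L2]
    have := hK2 v
    gcongr
  have hKone : ∀ i (v : EuclideanSpace ℂ m), ‖E (Km i) v‖ ≤ ‖v‖ := by
    intro i v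
    have h := hKsum v
    have h' : ‖E (Km i) v‖ ^ 2 ≤ ∑ j, ‖E (Km j) v‖ ^ 2 :=
      Finset.single_le_sum (f := fun j => ‖E (Km j) v‖ ^ 2) (fun j _ => by positivity)
        (Finset.mem_univ i)
    exact le_of_sq_le_sq (h'.trans h) (norm_nonneg _)
  have hKQ : ∀ i (v : EuclideanSpace ℂ m),
      E (Km i) (E (Q i) v) = E (Q i) v - (2 * n : ℂ) • E (M i) (E (Q i) v) := by
    intro i v
    have e1 : V (Pi.single i v) = E (Q i) v := by
      rw [hVapp, Finset.sum_eq_single i]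
      · simp
      · intro j _ hj; simp [hj]
      · simp
    rw [hKm, hK0app, ← e1, hK1, hRapp, hR0app, e1]
    rw [Finset.sum_eq_zero]
    · simp
    · intro j hj
      have : j ≠ i := Finset.ne_of_mem_erase hj
      simp [this]
  -- duality
  have hSnn : 0 ≤ ∑ j, A j ^ 2 := by
    apply Finset.sum_nonneg
    intro j _
    have : (A j) ^ 2 = (A j)ᴴ * A j := by rw [(hA j).1.eq, pow_two]
    rw [this]
    exact (Matrix.posSemidef_conjTranspose_mul_self _).nonneg
  have hdual := duality A Km (CFC.sqrt (∑ j, A j ^ 2)) (CFC.sqrt_nonneg _).posSemidef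
    (by
      rw [CFC.sqrt_mul_sqrt_self _ hSnn]
      apply Finset.sum_congr rfl
      intro j _
      rw [(hA j).1.eq, pow_two]) hKsum
  have hconj : ∀ j, ((Km j)ᴴ * A j).trace.re = (A j * Km j).trace.re := by
    intro j
    have : ((Km j)ᴴ * A j)ᴴ = A j * Km j := by
      rw [conjTranspose_mul, conjTranspose_conjTranspose, (hA j).1.eq]
    rw [← this, Matrix.trace_conjTranspose, Complex.star_def, Complex.conj_re]
  simp only [hconj] at hdual
  have hone : ∀ j, (A j * (1 - Km j)).trace.re ≤ 20 * n * (A j * M j).trace.re := fun j =>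
    one_estimate (q1 j) (q2 j) (q3 j) (hKone j) (hKQ j) (hA j) (q4 j) (q5 j) hn
  have hsum : ∑ j, (A j).trace.re - (CFC.sqrt (∑ j, A j ^ 2)).trace.re ≤
      20 * n * ∑ j, (A j * M j).trace.re := by
    rw [Finset.mul_sum]
    have e1 : ∑ j, (A j * (1 - Km j)).trace.re ≤ ∑ j, 20 * n * (A j * M j).trace.re :=
      Finset.sum_le_sum (fun j _ => hone j)
    have e2 : ∑ j, (A j * (1 - Km j)).trace.re =
        ∑ j, (A j).trace.re - ∑ j, (A j * Km j).trace.re := by
      rw [← Finset.sum_sub_distrib]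
      apply Finset.sum_congr rfl
      intro j _
      rw [Matrix.mul_sub, Matrix.mul_one, Matrix.trace_sub, Complex.sub_re]
    linarith
  refine hsum.trans ?_
  apply mul_le_mul_of_nonneg_left _ (by positivity)
  -- the sum of the traces against `M j`
  have e1 : ∀ i, (A i * M i).trace.re = ∑ j ∈ Finset.univ.erase i,
      ∑ k, ∑ k', l i k * (chi l i j k k' * ‖((U i)ᴴ * U j) k k'‖ ^ 2) := by
    intro i
    have : A i * M i = ∑ j ∈ Finset.univ.erase i,
        (U i * diagonal (fun k => (l i k : ℂ)) * (U i)ᴴ) * (T U l i j * (T U l i j)ᴴ) := by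
      rw [← Finset.mul_sum, ← h3]
      rfl
    rw [this, Matrix.trace_sum, Complex.re_sum]
    apply Finset.sum_congr rfl
    intro j _
    exact trace_T U l h1 i j
  simp only [e1]
  rw [sum_erase_pair]
  apply Finset.sum_le_sum
  intro i _
  apply Finset.sum_le_sum
  intro j hj
  have hij : i ≠ j := (Finset.mem_Ioi.mp hj).ne
  have e2 : ∑ k, ∑ k', l j k * (chi l j i k k' * ‖((U j)ᴴ * U i) k k'‖ ^ 2) =
      ∑ k, ∑ k', l j k' * (chi l j i k' k * ‖((U i)ᴴ * U j) k k'‖ ^ 2) := by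
    rw [Finset.sum_comm]
    apply Finset.sum_congr rfl
    intro k _
    apply Finset.sum_congr rfl
    intro k' _
    have : ((U i)ᴴ * U j)ᴴ = (U j)ᴴ * U i := by
      rw [conjTranspose_mul, conjTranspose_conjTranspose]
    rw [← this, conjTranspose_apply, norm_star]
  rw [e2]
  refine le_trans (le_of_eq ?_) (nussbaum_szkola (h2 i) (h2 j) (h4 i) (h4 j) (h3 i) (h3 j))
  rw [← Finset.sum_add_distrib]
  apply Finset.sum_congr rfl
  intro k _
  rw [← Finset.sum_add_distrib]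
  apply Finset.sum_congr rfl
  intro k' _
  rw [← chi_min l hij]
  ring

end Pool.Agent.H811R3.Tr
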